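import Pool.Agent.Helper77.K3.DefsI

/-!
# Good loxodromic elements (page, (8.1) and first part of (8.2))
-/

set_option autoImplicit false

open Set Filter Topology Matrix

namespace Pool.Agent.Helper65.K3.good

open Pool.Agent.Helper77.K3

/-! ## Dual bases -/

theorem WV {v w : Fin 3 → E} (dual : ∀ i j, w i ⬝ᵥ v j = if i = j then 1 else 0) :
    (Matrix.of w : M3) * (Matrix.of v : M3)ᵀ = 1 := by
  ext i j
  rw [Matrix.mul_apply, Matrix.one_apply]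
  exact dual i j

theorem expand {v w : Fin 3 → E} (dual : ∀ i j, w i ⬝ᵥ v j = if i = j then 1 else 0) (x : E) :
    x = (w 0 ⬝ᵥ x) • v 0 + (w 1 ⬝ᵥ x) • v 1 + (w 2 ⬝ᵥ x) • v 2 := by
  have h0 : (Matrix.of v : M3)ᵀ * (Matrix.of w : M3) = 1 := mul_eq_one_comm.mp (WV dual)
  have h : ((Matrix.of v : M3)ᵀ * (Matrix.of w : M3)) *ᵥ x = x := by rw [h0, one_mulVec]
  rw [← mulVec_mulVec] at h
  funext a
  have h2 := congrFun h a
  simp only [mulVec, dotProduct, Fin.sum_univ_three, Matrix.transpose_apply, Matrix.of_apply] at h2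
  simp only [dotProduct, Fin.sum_univ_three, Pi.add_apply, Pi.smul_apply, smul_eq_mul]
  linarith

theorem dual_symm {v w : Fin 3 → E} (dual : ∀ i j, w i ⬝ᵥ v j = if i = j then 1 else 0) :
    ∀ i j, v i ⬝ᵥ w j = if i = j then 1 else 0 := by
  intro i j
  rw [dotProduct_comm, dual j i]
  by_cases h : i = j
  · simp [h]
  · simp [h, Ne.symm h]

theorem expand' {v w : Fin 3 → E} (dual : ∀ i j, w i ⬝ᵥ v j = if i = j then 1 else 0) (x : E) :
    x = (x ⬝ᵥ v 0) • w 0 + (x ⬝ᵥ v 1) • w 1 + (x ⬝ᵥ v 2) • w 2 := by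
  have h := expand (dual_symm dual) x
  rw [dotProduct_comm (v 0), dotProduct_comm (v 1), dotProduct_comm (v 2)] at h
  exact h

theorem v_ne {v w : Fin 3 → E} (dual : ∀ i j, w i ⬝ᵥ v j = if i = j then 1 else 0) (i : Fin 3) :
    v i ≠ 0 := by
  intro h
  have := dual i i
  rw [h, dotProduct_zero] at this
  simp at this

theorem w_ne {v w : Fin 3 → E} (dual : ∀ i j, w i ⬝ᵥ v j = if i = j then 1 else 0) (i : Fin 3) :
    w i ≠ 0 := by
  intro h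
  have := dual i i
  rw [h, zero_dotProduct] at this
  simp at this

/-! ## The representation -/

variable {F : FS}

theorem m_mul (f g : F.G) : F.m (f * g) = F.m f * F.m g := by
  unfold FS.m
  rw [map_mul, Matrix.SpecialLinearGroup.coe_mul]

theorem m_one : F.m 1 = 1 := by
  unfold FS.m
  rw [map_one, Matrix.SpecialLinearGroup.coe_one]

theorem m_pow_v {f : F.G} {x : E} {c : ℝ} (h : F.m f *ᵥ x = c • x) (n : ℕ) :
    F.m (f ^ n) *ᵥ x = c ^ n • x := by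
  induction n with
  | zero => rw [pow_zero, pow_zero, m_one, one_mulVec, one_smul]
  | succ n ih =>
    rw [pow_succ, m_mul, ← mulVec_mulVec, h, mulVec_smul, ih, smul_smul, pow_succ, mul_comm]

theorem m_pow_w {f : F.G} {x : E} {c : ℝ} (h : x ᵥ* F.m f = c • x) (n : ℕ) :
    x ᵥ* F.m (f ^ n) = c ^ n • x := by
  induction n with
  | zero => rw [pow_zero, pow_zero, m_one, vecMul_one, one_smul]
  | succ n ih =>
    rw [pow_succ, m_mul, ← vecMul_vecMul, ih, smul_vecMul, h, smul_smul, pow_succ]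

theorem m_inv_v {f : F.G} {x : E} {c : ℝ} (h : F.m f *ᵥ x = c • x) (hc : c ≠ 0) :
    F.m f⁻¹ *ᵥ x = c⁻¹ • x := by
  have h1 : F.m f⁻¹ *ᵥ (F.m f *ᵥ x) = x := by
    rw [mulVec_mulVec, ← m_mul, inv_mul_cancel, m_one, one_mulVec]
  rw [h, mulVec_smul] at h1
  calc F.m f⁻¹ *ᵥ x = c⁻¹ • (c • (F.m f⁻¹ *ᵥ x)) := by
        rw [smul_smul, inv_mul_cancel₀ hc, one_smul]
    _ = c⁻¹ • x := by rw [h1]

theorem m_inv_w {f : F.G} {x : E} {c : ℝ} (h : x ᵥ* F.m f = c • x) (hc : c ≠ 0) :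
    x ᵥ* F.m f⁻¹ = c⁻¹ • x := by
  have h1 : (x ᵥ* F.m f) ᵥ* F.m f⁻¹ = x := by
    rw [vecMul_vecMul, ← m_mul, mul_inv_cancel, m_one, vecMul_one]
  rw [h, smul_vecMul] at h1
  calc x ᵥ* F.m f⁻¹ = c⁻¹ • (c • (x ᵥ* F.m f⁻¹)) := by
        rw [smul_smul, inv_mul_cancel₀ hc, one_smul]
    _ = c⁻¹ • x := by rw [h1]

/-! ## Limits under powers -/

theorem kill (hf : S_flag) (f : F.G) (x y : E) (a b cx cy : ℝ) (hx : F.m f *ᵥ x = cx • x)
    (hy : F.m f *ᵥ y = cy • y) (hc : |cx| < |cy|) (p : E × E) (hpF : p ∈ F.fl)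
    (hp : p.1 = a • x + b • y) (hb : b • y ≠ 0) : ∃ φ, (b • y, φ) ∈ F.fl := by
  obtain ⟨_, hsc, hact, _, _, _, _, hcl, _⟩ := hf F
  have hcy : cy ≠ 0 := by
    intro h
    rw [h, abs_zero] at hc
    exact absurd (abs_nonneg cx) (not_le.mpr hc)
  apply hcl _ _ hb
  have hlim : Tendsto (fun n : ℕ => (a * (cx / cy) ^ n) • x + b • y) atTop (𝓝 (b • y)) := by
    have h1 : Tendsto (fun n : ℕ => (cx / cy) ^ n) atTop (𝓝 0) := by
      apply tendsto_pow_atTop_nhds_zero_of_abs_lt_one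
      rw [abs_div, div_lt_one (abs_pos.mpr hcy)]
      exact hc
    have h2 : Tendsto (fun n : ℕ => (a * (cx / cy) ^ n) • x + b • y) atTop
        (𝓝 ((a * 0) • x + b • y)) := ((h1.const_mul a).smul_const x).add tendsto_const_nhds
    rw [mul_zero, zero_smul, zero_add] at h2
    exact h2
  apply mem_closure_of_tendsto hlim
  filter_upwards with n
  refine ⟨(cy⁻¹ ^ n) • (p.2 ᵥ* F.m (f ^ n)⁻¹), ?_⟩
  have h3 := hact p hpF (f ^ n)
  have h4 := hsc _ h3 (cy⁻¹ ^ n) (cy⁻¹ ^ n) (mul_self_pos.mpr (pow_ne_zero _ (inv_ne_zero hcy)))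
  have h5 : (cy⁻¹ ^ n) • (F.m (f ^ n) *ᵥ p.1) = (a * (cx / cy) ^ n) • x + b • y := by
    rw [hp, mulVec_add, mulVec_smul, mulVec_smul, m_pow_v hx, m_pow_v hy, smul_add, smul_smul,
      smul_smul, smul_smul, smul_smul]
    congr 1
    · congr 1
      rw [div_pow, inv_pow]
      ring
    · congr 1
      rw [inv_pow]
      field_simp
  rw [← h5]
  exact h4

theorem kill' (hf : S_flag) (f : F.G) (x y : E) (a b cx cy : ℝ) (hx : x ᵥ* F.m f⁻¹ = cx • x)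
    (hy : y ᵥ* F.m f⁻¹ = cy • y) (hc : |cx| < |cy|) (p : E × E) (hpF : p ∈ F.fl)
    (hp : p.2 = a • x + b • y) (hb : b • y ≠ 0) : ∃ z, (z, b • y) ∈ F.fl := by
  obtain ⟨_, hsc, hact, _, _, _, _, _, hcl⟩ := hf F
  have hcy : cy ≠ 0 := by
    intro h
    rw [h, abs_zero] at hc
    exact absurd (abs_nonneg cx) (not_le.mpr hc)
  apply hcl _ _ hb
  have hlim : Tendsto (fun n : ℕ => (a * (cx / cy) ^ n) • x + b • y) atTop (𝓝 (b • y)) := by
    have h1 : Tendsto (fun n : ℕ => (cx / cy) ^ n) atTop (𝓝 0) := by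
      apply tendsto_pow_atTop_nhds_zero_of_abs_lt_one
      rw [abs_div, div_lt_one (abs_pos.mpr hcy)]
      exact hc
    have h2 : Tendsto (fun n : ℕ => (a * (cx / cy) ^ n) • x + b • y) atTop
        (𝓝 ((a * 0) • x + b • y)) := ((h1.const_mul a).smul_const x).add tendsto_const_nhds
    rw [mul_zero, zero_smul, zero_add] at h2
    exact h2
  apply mem_closure_of_tendsto hlim
  filter_upwards with n
  refine ⟨(cy⁻¹ ^ n) • (F.m (f ^ n) *ᵥ p.1), ?_⟩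
  have h3 := hact p hpF (f ^ n)
  have h4 := hsc _ h3 (cy⁻¹ ^ n) (cy⁻¹ ^ n) (mul_self_pos.mpr (pow_ne_zero _ (inv_ne_zero hcy)))
  have h5 : (cy⁻¹ ^ n) • (p.2 ᵥ* F.m (f ^ n)⁻¹) = (a * (cx / cy) ^ n) • x + b • y := by
    rw [← inv_pow, hp, add_vecMul, smul_vecMul, smul_vecMul, m_pow_w hx, m_pow_w hy, smul_add,
      smul_smul, smul_smul, smul_smul, smul_smul]
    congr 1
    · congr 1
      rw [div_pow, inv_pow]
      ring
    · congr 1
      rw [inv_pow]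
      field_simp
  rw [← h5]
  exact h4

/-! ## The first part of (8.2) -/

/-- The part of `FS.Good` that is used in (8.2). -/
structure PG (F : FS) (d : F.G) (v w : Fin 3 → E) (μ : Fin 3 → ℝ) : Prop where
  hv : ∀ i, F.m d *ᵥ v i = μ i • v i
  hw : ∀ i, w i ᵥ* F.m d = μ i • w i
  dual : ∀ i j, w i ⬝ᵥ v j = if i = j then 1 else 0
  pos : 0 < μ 2
  lt1 : μ 2 < μ 1
  lt0 : μ 1 < μ 0
  hv1 : ∀ p ∈ F.fl, ∀ t : ℝ, p.1 ≠ t • v 1
  hw1 : ∀ p ∈ F.fl, ∀ t : ℝ, p.2 ≠ t • w 1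

theorem good2' (hf : S_flag) {d : F.G} {v w : Fin 3 → E} {μ : Fin 3 → ℝ} (hG : PG F d v w μ)
    (p : E × E) (hp : p ∈ F.fl) :
    (w 2 ⬝ᵥ p.1 = 0 → ∃ t : ℝ, p.1 = t • v 0) ∧ (w 0 ⬝ᵥ p.1 = 0 → ∃ t : ℝ, p.1 = t • v 2) ∧
    (p.2 ⬝ᵥ v 0 = 0 → ∃ t : ℝ, p.2 = t • w 2) ∧ (p.2 ⬝ᵥ v 2 = 0 → ∃ t : ℝ, p.2 = t • w 0) := by
  have hμ2 := hG.pos
  have hμ1 : 0 < μ 1 := hμ2.trans hG.lt1
  have hμ0 : 0 < μ 0 := hμ1.trans hG.lt0
  have e1 := expand hG.dual p.1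
  have e2 := expand' hG.dual p.2
  have i1 : (μ 0)⁻¹ < (μ 1)⁻¹ := inv_strictAnti₀ hμ1 hG.lt0
  have i2 : (μ 1)⁻¹ < (μ 2)⁻¹ := inv_strictAnti₀ hμ2 hG.lt1
  have v1 := v_ne hG.dual 1
  have w1 := w_ne hG.dual 1
  refine ⟨fun h => ?_, fun h => ?_, fun h => ?_, fun h => ?_⟩
  · rw [h, zero_smul, add_zero] at e1
    by_cases hb : w 1 ⬝ᵥ p.1 = 0
    · rw [hb, zero_smul, add_zero] at e1
      exact ⟨_, e1⟩
    · exfalso
      obtain ⟨φ, hφ⟩ := kill hf d⁻¹ (v 0) (v 1) _ _ _ _ (m_inv_v (hG.hv 0) hμ0.ne')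
        (m_inv_v (hG.hv 1) hμ1.ne') (by
          rw [abs_of_pos (inv_pos.mpr hμ0), abs_of_pos (inv_pos.mpr hμ1)]
          exact i1) p hp e1 (smul_ne_zero hb v1)
      exact hG.hv1 _ hφ _ rfl
  · rw [h, zero_smul, zero_add, add_comm] at e1
    by_cases hb : w 1 ⬝ᵥ p.1 = 0
    · rw [hb, zero_smul, add_zero] at e1
      exact ⟨_, e1⟩
    · exfalso
      obtain ⟨φ, hφ⟩ := kill hf d (v 2) (v 1) _ _ _ _ (hG.hv 2) (hG.hv 1) (by
          rw [abs_of_pos hμ2, abs_of_pos hμ1]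
          exact hG.lt1) p hp e1 (smul_ne_zero hb v1)
      exact hG.hv1 _ hφ _ rfl
  · rw [h, zero_smul, zero_add, add_comm] at e2
    by_cases hb : p.2 ⬝ᵥ v 1 = 0
    · rw [hb, zero_smul, add_zero] at e2
      exact ⟨_, e2⟩
    · exfalso
      obtain ⟨φ, hφ⟩ := kill' hf d⁻¹ (w 2) (w 1) _ _ (μ 2) (μ 1)
        (by rw [inv_inv]; exact hG.hw 2) (by rw [inv_inv]; exact hG.hw 1) (by
          rw [abs_of_pos hμ2, abs_of_pos hμ1]
          exact hG.lt1) p hp e2 (smul_ne_zero hb w1)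
      exact hG.hw1 _ hφ _ rfl
  · rw [h, zero_smul, add_zero] at e2
    by_cases hb : p.2 ⬝ᵥ v 1 = 0
    · rw [hb, zero_smul, add_zero] at e2
      exact ⟨_, e2⟩
    · exfalso
      obtain ⟨φ, hφ⟩ := kill' hf d (w 0) (w 1) _ _ _ _ (m_inv_w (hG.hw 0) hμ0.ne')
        (m_inv_w (hG.hw 1) hμ1.ne') (by
          rw [abs_of_pos (inv_pos.mpr hμ0), abs_of_pos (inv_pos.mpr hμ1)]
          exact i1) p hp e2 (smul_ne_zero hb w1)
      exact hG.hw1 _ hφ _ rfl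

theorem good2 (hf : S_flag) : S_good2 := by
  intro F d v w μ hG p hp
  exact good2' hf ⟨hG.hv, hG.hw, hG.dual, hG.pos, hG.lt1, hG.lt0, hG.hv1, hG.hw1⟩ p hp

/-! ## (8.1) -/

theorem decomp {v w : Fin 3 → E} (dual : ∀ i j, w i ⬝ᵥ v j = if i = j then 1 else 0) (M : M3)
    (a b : Fin 3) : M a b = (M *ᵥ v 0) a * w 0 b + (M *ᵥ v 1) a * w 1 b + (M *ᵥ v 2) a * w 2 b := by
  have h0 : (Matrix.of v : M3)ᵀ * (Matrix.of w : M3) = 1 := mul_eq_one_comm.mp (WV dual)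
  have h1 : M * ((Matrix.of v : M3)ᵀ * (Matrix.of w : M3)) = M := by rw [h0, mul_one]
  have h2 := congrFun (congrFun h1 a) b
  simp only [Matrix.mul_apply, Fin.sum_univ_three, Matrix.transpose_apply, Matrix.of_apply] at h2
  simp only [mulVec, dotProduct, Fin.sum_univ_three]
  linarith

theorem lim_rank1 {v w : Fin 3 → E} (dual : ∀ i j, w i ⬝ᵥ v j = if i = j then 1 else 0)
    (f : F.G) (c : Fin 3 → ℝ) (k : Fin 3) (hv : ∀ i, F.m f *ᵥ v i = c i • v i)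
    (hc : ∀ i, i ≠ k → |c i| < |c k|) (hk : c k ≠ 0) :
    Tendsto (fun n : ℕ => ((c k) ^ n)⁻¹ • F.m (f ^ n)) atTop (𝓝 (vecMulVec (v k) (w k))) := by
  refine tendsto_pi_nhds.mpr fun a => tendsto_pi_nhds.mpr fun b => ?_
  have h1 : ∀ i, Tendsto (fun n : ℕ => (c i / c k) ^ n) atTop (𝓝 (if i = k then 1 else 0)) := by
    intro i
    by_cases h : i = k
    · simp [h, div_self hk]
    · rw [if_neg h]
      apply tendsto_pow_atTop_nhds_zero_of_abs_lt_one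
      rw [abs_div, div_lt_one (abs_pos.mpr hk)]
      exact hc i h
  have h2 : ∀ n : ℕ, (((c k) ^ n)⁻¹ • F.m (f ^ n)) a b =
      (c 0 / c k) ^ n * (v 0 a * w 0 b) + (c 1 / c k) ^ n * (v 1 a * w 1 b) +
        (c 2 / c k) ^ n * (v 2 a * w 2 b) := by
    intro n
    rw [Matrix.smul_apply, decomp dual (F.m (f ^ n)) a b, m_pow_v (hv 0), m_pow_v (hv 1),
      m_pow_v (hv 2)]
    simp only [Pi.smul_apply, smul_eq_mul, div_pow]
    ring
  have h3 : (vecMulVec (v k) (w k)) a b =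
      (if (0 : Fin 3) = k then 1 else 0) * (v 0 a * w 0 b) +
      (if (1 : Fin 3) = k then 1 else 0) * (v 1 a * w 1 b) +
        (if (2 : Fin 3) = k then 1 else 0) * (v 2 a * w 2 b) := by
    rw [vecMulVec_apply]
    fin_cases k <;> simp
  rw [h3]
  have h4 := (((h1 0).mul_const (v 0 a * w 0 b)).add ((h1 1).mul_const (v 1 a * w 1 b))).add
    ((h1 2).mul_const (v 2 a * w 2 b))
  refine h4.congr fun n => ?_
  exact (h2 n).symm

theorem e_apply (i j : Fin 3) : (e i : E) j = if j = i then 1 else 0 := by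
  unfold e
  rw [Pi.single_apply]

theorem mulVec_e (M : M3) (j a : Fin 3) : (M *ᵥ e j) a = M a j := by
  simp only [mulVec, dotProduct, e_apply]
  simp

theorem vecMul_e (M : M3) (j a : Fin 3) : (e j ᵥ* M) a = M j a := by
  simp only [vecMul, dotProduct, e_apply]
  simp

theorem dot_e (x : E) (j : Fin 3) : x ⬝ᵥ e j = x j := by
  simp only [dotProduct, e_apply]
  simp

theorem e_dot (x : E) (j : Fin 3) : e j ⬝ᵥ x = x j := by
  simp only [dotProduct, e_apply]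
  simp

theorem g_v (F : FS) (i : Fin 3) : F.m F.g *ᵥ e i = F.ν i • e i := by
  have h : F.m F.g = Matrix.diagonal F.ν := F.diag
  rw [h]
  funext a
  rw [mulVec_e, Matrix.diagonal_apply, Pi.smul_apply, e_apply, smul_eq_mul]
  by_cases h : a = i
  · simp [h]
  · simp [h]

theorem g_pow (F : FS) (n : ℕ) (a b : Fin 3) :
    F.m (F.g ^ n) a b = if a = b then (F.ν b) ^ n else 0 := by
  have h := mulVec_e (F.m (F.g ^ n)) b a
  rw [m_pow_v (g_v F b), Pi.smul_apply, e_apply, smul_eq_mul] at h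
  rw [← h]
  simp

theorem g_inv_pow (F : FS) (h0 : ∀ i, F.ν i ≠ 0) (n : ℕ) (a b : Fin 3) :
    F.m (F.g⁻¹ ^ n) a b = if a = b then ((F.ν b)⁻¹) ^ n else 0 := by
  have h := mulVec_e (F.m (F.g⁻¹ ^ n)) b a
  rw [m_pow_v (m_inv_v (g_v F b) (h0 b)), Pi.smul_apply, e_apply, smul_eq_mul] at h
  rw [← h]
  simp

theorem nu_prod (F : FS) : F.ν 0 * F.ν 1 * F.ν 2 = 1 := by
  have h1 : (F.ρ F.g : M3).det = 1 := (F.ρ F.g).det_coe
  rw [F.diag, Matrix.det_diagonal, Fin.prod_univ_three] at h1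
  exact h1

theorem nu_bd (F : FS) : F.ν 2 < 1 ∧ 1 < F.ν 0 := by
  have h := nu_prod F
  have h2 := F.pos
  have h1 := F.lt1
  have h0 := F.lt0
  constructor
  · by_contra hc
    push Not at hc
    have h3 : 1 < F.ν 1 := hc.trans_lt h1
    have h4 : 1 < F.ν 0 := h3.trans h0
    have h5 : 1 < F.ν 0 * F.ν 1 := by nlinarith
    have h6 : 1 < F.ν 0 * F.ν 1 * F.ν 2 := by nlinarith
    linarith
  · by_contra hc
    push Not at hc
    have h3 : F.ν 1 < 1 := h0.trans_le hc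
    have h4 : F.ν 2 < 1 := h1.trans h3
    have h5 : 0 < F.ν 1 := h2.trans h1
    have h5' : 0 < F.ν 0 := h5.trans h0
    have h6 : F.ν 0 * F.ν 1 < 1 := by nlinarith
    have h7 : 0 < F.ν 0 * F.ν 1 := by positivity
    have h8 : F.ν 0 * F.ν 1 * F.ν 2 < 1 := by nlinarith
    linarith

/-- The cross product. -/
def cr (a b : E) : E := ![a 1 * b 2 - a 2 * b 1, a 2 * b 0 - a 0 * b 2, a 0 * b 1 - a 1 * b 0]

theorem dot_cr_left (a b : E) : a ⬝ᵥ cr a b = 0 := by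
  simp [cr, dotProduct, Fin.sum_univ_three]
  ring

theorem dot_cr_right (a b : E) : b ⬝ᵥ cr a b = 0 := by
  simp [cr, dotProduct, Fin.sum_univ_three]
  ring

theorem continuous_cr : Continuous fun p : E × E => cr p.1 p.2 := by
  unfold cr
  refine continuous_pi fun i => ?_
  fin_cases i <;> simp <;> fun_prop

theorem nbhd (U : Set E) (hU : IsOpen U) (a0 b0 : E) (h : cr a0 b0 ∈ U) :
    ∃ ε > 0, ∀ a b : E, ‖a - a0‖ < ε → ‖b - b0‖ < ε → cr a b ∈ U := by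
  have h1 : IsOpen ((fun p : E × E => cr p.1 p.2) ⁻¹' U) := hU.preimage continuous_cr
  obtain ⟨ε, hε, hB⟩ := Metric.isOpen_iff.mp h1 (a0, b0) h
  refine ⟨ε, hε, fun a b ha hb => ?_⟩
  have h2 : (a, b) ∈ Metric.ball (a0, b0) ε := by
    rw [Metric.mem_ball, Prod.dist_eq, dist_eq_norm, dist_eq_norm]
    exact max_lt ha hb
  exact hB h2

/-- The functional `x ↦ a ⬝ᵥ x`. -/
def dl (a : E) : E →ₗ[ℝ] ℝ where
  toFun x := a ⬝ᵥ x
  map_add' x y := dotProduct_add a x y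
  map_smul' c x := by rw [dotProduct_smul]; rfl

theorem dl_ne {a : E} (h : a ≠ 0) : dl a ≠ 0 := by
  intro h1
  have h2 : a ⬝ᵥ a = 0 := by
    have := LinearMap.congr_fun h1 a
    exact this
  exact h (dotProduct_self_eq_zero.mp h2)

theorem e_ne (i : Fin 3) : (e i : E) ≠ 0 := by
  intro h
  have := congrFun h i
  rw [e_apply] at this
  simp at this

/-- The element `f` in general position. -/
theorem exists_f (hg : S_gen) (F : FS) (Z Zs : Finset E) (hZ : ∀ z ∈ Z, z ≠ 0)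
    (hZs : ∀ z ∈ Zs, z ≠ 0) : ∃ f : F.G, F.m f 2 2 ≠ 0 ∧ F.m f⁻¹ 0 0 ≠ 0 ∧
      (∀ z ∈ Z, (F.m f *ᵥ z) 2 ≠ 0) ∧ (∀ z ∈ Zs, z ⬝ᵥ (F.m f⁻¹ *ᵥ e 0) ≠ 0) := by
  obtain ⟨f, h1, h2⟩ := hg F.G E (linRep F.ρ) F.irr (Option {z // z ∈ Z}) (Option {z // z ∈ Zs})
    (fun _ => dl (e 2)) (fun o => o.elim (e 2) (fun z => z.1))
    (fun o => dl (o.elim (e 0) (fun z => z.1))) (fun _ => e 0)
    (fun _ => dl_ne (e_ne 2)) (by
      intro o
      cases o with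
      | none => exact e_ne 2
      | some z => exact hZ z.1 z.2) (by
      intro o
      cases o with
      | none => exact dl_ne (e_ne 0)
      | some z => exact dl_ne (hZs z.1 z.2)) (fun _ => e_ne 0)
  refine ⟨f, ?_, ?_, ?_, ?_⟩
  · have h3 : e 2 ⬝ᵥ (F.m f *ᵥ e 2) ≠ 0 := h1 none
    rw [e_dot, mulVec_e] at h3
    exact h3
  · have h3 : e 0 ⬝ᵥ (F.m f⁻¹ *ᵥ e 0) ≠ 0 := h2 none
    rw [e_dot, mulVec_e] at h3
    exact h3
  · intro z hz
    have h3 : e 2 ⬝ᵥ (F.m f *ᵥ z) ≠ 0 := h1 (some ⟨z, hz⟩)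
    rw [e_dot] at h3
    exact h3
  · intro z hz
    exact h2 (some ⟨z, hz⟩)

theorem nu_pos (F : FS) (i : Fin 3) : 0 < F.ν i := by
  have h2 := F.pos
  have h1 := F.lt1
  have h0 := F.lt0
  fin_cases i
  · exact (h2.trans h1).trans h0
  · exact h2.trans h1
  · exact h2

theorem lim_A (F : FS) (f : F.G) :
    Tendsto (fun n : ℕ => (((F.ν 2)⁻¹) ^ n)⁻¹ • ((F.ρ (F.g⁻¹ ^ n * f) : SL3) : M3)) atTop
      (𝓝 (vecMulVec (e 2) (e 2 ᵥ* F.m f))) := by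
  refine tendsto_pi_nhds.mpr fun a => tendsto_pi_nhds.mpr fun b => ?_
  have h1 : Tendsto (fun n : ℕ => (F.ν 2 / F.ν a) ^ n) atTop (𝓝 (if a = 2 then 1 else 0)) := by
    by_cases h : a = 2
    · simp [h, div_self (nu_pos F 2).ne']
    · rw [if_neg h]
      apply tendsto_pow_atTop_nhds_zero_of_abs_lt_one
      rw [abs_div, abs_of_pos (nu_pos F 2), abs_of_pos (nu_pos F a), div_lt_one (nu_pos F a)]
      have h1 := F.lt1
      have h0 := F.lt0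
      fin_cases a
      · exact h1.trans h0
      · exact h1
      · exact absurd rfl h
  have h2 : ∀ n : ℕ, ((((F.ν 2)⁻¹) ^ n)⁻¹ • ((F.ρ (F.g⁻¹ ^ n * f) : SL3) : M3)) a b =
      (F.ν 2 / F.ν a) ^ n * F.m f a b := by
    intro n
    have h3 : ((F.ρ (F.g⁻¹ ^ n * f) : SL3) : M3) = F.m (F.g⁻¹ ^ n) * F.m f := m_mul _ _
    rw [h3, Matrix.smul_apply, Matrix.mul_apply]
    simp only [g_inv_pow F (fun i => (nu_pos F i).ne'), ite_mul, zero_mul, Finset.sum_ite_eq,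
      Finset.mem_univ, if_true, smul_eq_mul]
    rw [← mul_assoc]
    congr 1
    rw [div_pow, inv_pow, inv_pow, inv_inv, div_eq_mul_inv]
  have h3 : (vecMulVec (e 2) (e 2 ᵥ* F.m f)) a b = (if a = 2 then 1 else 0) * F.m f a b := by
    rw [vecMulVec_apply, vecMul_e, e_apply]
    by_cases h : a = 2
    · rw [h]
    · simp [h]
  rw [h3]
  exact (h1.mul_const _).congr fun n => (h2 n).symm

theorem lim_A' (F : FS) (f : F.G) :
    Tendsto (fun n : ℕ => ((F.ν 0) ^ n)⁻¹ • ((F.ρ (F.g⁻¹ ^ n * f))⁻¹ : SL3).1) atTop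
      (𝓝 (vecMulVec (F.m f⁻¹ *ᵥ e 0) (e 0))) := by
  refine tendsto_pi_nhds.mpr fun a => tendsto_pi_nhds.mpr fun b => ?_
  have h1 : Tendsto (fun n : ℕ => (F.ν b / F.ν 0) ^ n) atTop (𝓝 (if b = 0 then 1 else 0)) := by
    by_cases h : b = 0
    · simp [h, div_self (nu_pos F 0).ne']
    · rw [if_neg h]
      apply tendsto_pow_atTop_nhds_zero_of_abs_lt_one
      rw [abs_div, abs_of_pos (nu_pos F 0), abs_of_pos (nu_pos F b), div_lt_one (nu_pos F 0)]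
      have h1 := F.lt1
      have h0 := F.lt0
      fin_cases b
      · exact absurd rfl h
      · exact h0
      · exact h1.trans h0
  have h2 : ∀ n : ℕ, (((F.ν 0) ^ n)⁻¹ • ((F.ρ (F.g⁻¹ ^ n * f))⁻¹ : SL3).1) a b =
      (F.ν b / F.ν 0) ^ n * F.m f⁻¹ a b := by
    intro n
    have h3 : ((F.ρ (F.g⁻¹ ^ n * f))⁻¹ : SL3).1 = F.m f⁻¹ * F.m (F.g ^ n) := by
      rw [← map_inv, _root_.mul_inv_rev, inv_pow, inv_inv]
      exact m_mul _ _
    rw [h3, Matrix.smul_apply, Matrix.mul_apply]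
    simp only [g_pow F, mul_ite, mul_zero, Finset.sum_ite_eq', Finset.mem_univ, if_true,
      smul_eq_mul]
    rw [div_pow]
    ring
  have h3 : (vecMulVec (F.m f⁻¹ *ᵥ e 0) (e 0)) a b = (if b = 0 then 1 else 0) * F.m f⁻¹ a b := by
    rw [vecMulVec_apply, mulVec_e, e_apply]
    by_cases h : b = 0
    · rw [h]; simp
    · simp [h]
  rw [h3]
  exact (h1.mul_const _).congr fun n => (h2 n).symm

theorem good (hf : S_flag) (hl : S_flim) (hD : S_lemD) (hDs : S_lemDs) (hp : S_pert)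
    (hg : S_gen) : S_good := by
  intro F
  obtain ⟨hbase, hsc, hact, hdot, hNC, hcl, hpm, hcl1, hcl2⟩ := hf F
  obtain ⟨Z, hZ0, hZ⟩ := hD F (e 2, e 0) hbase
  obtain ⟨Zs, hZs0, hZs⟩ := hDs F (e 2, e 0) hbase
  obtain ⟨f, h22, h00, hZf, hZsf⟩ := exists_f hg F Z Zs hZ0 hZs0
  -- the two open sets
  have hU1 : cr (e 2 ᵥ* F.m f) (e 0) ∈ (closure {x | ∃ φ, (x, φ) ∈ F.fl} ∪ {0})ᶜ := by
    have hne : cr (e 2 ᵥ* F.m f) (e 0) ≠ 0 := by
      intro h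
      have h1 := congrFun h 1
      simp only [cr, vecMul_e, e_apply] at h1
      simp at h1
      exact h22 h1
    rintro (h | h)
    · obtain ⟨ψ, hψ⟩ := hcl1 _ h hne
      obtain ⟨z, hz, t, ht, h1⟩ := hZ _ hψ (dot_cr_right _ _)
      have h2 : (e 2 ᵥ* F.m f) ⬝ᵥ cr (e 2 ᵥ* F.m f) (e 0) = 0 := dot_cr_left _ _
      have h1' : cr (e 2 ᵥ* F.m f) (e 0) = t • z := h1
      rw [h1', dotProduct_smul, ← dotProduct_mulVec, e_dot, smul_eq_mul] at h2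
      rcases mul_eq_zero.mp h2 with h3 | h3
      · exact ht h3
      · exact hZf z hz h3
    · exact hne h
  have hU2 : cr (e 2) (F.m f⁻¹ *ᵥ e 0) ∈ (closure {φ | ∃ x, (x, φ) ∈ F.fl} ∪ {0})ᶜ := by
    have hne : cr (e 2) (F.m f⁻¹ *ᵥ e 0) ≠ 0 := by
      intro h
      have h1 := congrFun h 1
      simp only [cr, mulVec_e, e_apply] at h1
      simp at h1
      exact h00 h1
    rintro (h | h)
    · obtain ⟨x, hx⟩ := hcl2 _ h hne
      obtain ⟨z, hz, t, ht, h1⟩ := hZs _ hx (by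
        show cr (e 2) (F.m f⁻¹ *ᵥ e 0) ⬝ᵥ e 2 = 0
        rw [dotProduct_comm]
        exact dot_cr_left _ _)
      have h2 : (F.m f⁻¹ *ᵥ e 0) ⬝ᵥ cr (e 2) (F.m f⁻¹ *ᵥ e 0) = 0 := dot_cr_right _ _
      have h1' : cr (e 2) (F.m f⁻¹ *ᵥ e 0) = t • z := h1
      rw [h1', dotProduct_smul, dotProduct_comm, smul_eq_mul] at h2
      rcases mul_eq_zero.mp h2 with h3 | h3
      · exact ht h3
      · exact hZsf z hz h3
    · exact hne h
  obtain ⟨ε1, hε1, hn1⟩ := nbhd _ (isClosed_closure.union isClosed_singleton).isOpen_compl _ _ hU1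
  obtain ⟨ε2, hε2, hn2⟩ := nbhd _ (isClosed_closure.union isClosed_singleton).isOpen_compl _ _ hU2
  -- the perturbation lemma
  have hinv : 1 < (F.ν 2)⁻¹ := (one_lt_inv₀ F.pos).mpr (nu_bd F).1
  have hP := hp (fun n => F.ρ (F.g⁻¹ ^ n * f)) (fun n => ((F.ν 2)⁻¹) ^ n) (fun n => (F.ν 0) ^ n)
    (e 2) (e 2 ᵥ* F.m f) (F.m f⁻¹ *ᵥ e 0) (e 0) (tendsto_pow_atTop_atTop_of_one_lt hinv)
    (tendsto_pow_atTop_atTop_of_one_lt (nu_bd F).2) (lim_A F f) (lim_A' F f)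
    (by rw [dot_e, vecMul_e]; exact h22) (by rw [e_dot, mulVec_e]; exact h00) (min ε1 ε2)
    (lt_min hε1 hε2)
  obtain ⟨n, v, w, ν', hv, hw, hν2, hν1, hν0, hort, hne, hd1, hd2, hd3, hd4⟩ := hP.exists
  have hc1 := hn1 (w 0) (w 2) (hd3.trans_le (min_le_left _ _)) (hd4.trans_le (min_le_left _ _))
  have hc2 := hn2 (v 0) (v 2) (hd1.trans_le (min_le_right _ _)) (hd2.trans_le (min_le_right _ _))
  set h : F.G := F.g⁻¹ ^ n * f with hh
  have hv' : ∀ i, F.m h *ᵥ v i = ν' i • v i := hv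
  have hw' : ∀ i, w i ᵥ* F.m h = ν' i • w i := hw
  have dual : ∀ i j, ((w i ⬝ᵥ v i)⁻¹ • w i) ⬝ᵥ v j = if i = j then 1 else 0 := by
    intro i j
    rw [smul_dotProduct, smul_eq_mul]
    by_cases hij : i = j
    · subst hij
      rw [if_pos rfl]
      exact inv_mul_cancel₀ (hne i)
    · rw [if_neg hij, hort i j hij, mul_zero]
  -- `v 1` and `w 1`
  have hv1 : ∀ p ∈ F.fl, ∀ t : ℝ, p.1 ≠ t • v 1 := by
    intro p hpF t hpt
    have ht : t ≠ 0 := by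
      rintro rfl
      rw [zero_smul] at hpt
      exact hpF.2.1 hpt
    have hex := expand dual (cr (w 0) (w 2))
    have ha : ((w 0 ⬝ᵥ v 0)⁻¹ • w 0) ⬝ᵥ cr (w 0) (w 2) = 0 := by
      rw [smul_dotProduct, dot_cr_left, smul_zero]
    have hb : ((w 2 ⬝ᵥ v 2)⁻¹ • w 2) ⬝ᵥ cr (w 0) (w 2) = 0 := by
      rw [smul_dotProduct, dot_cr_right, smul_zero]
    rw [ha, hb, zero_smul, zero_smul, zero_add, add_zero] at hex
    set s := ((w 1 ⬝ᵥ v 1)⁻¹ • w 1) ⬝ᵥ cr (w 0) (w 2) with hs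
    have hs0 : s ≠ 0 := by
      intro h0
      rw [h0, zero_smul] at hex
      exact hc1 (Or.inr hex)
    apply hc1
    left
    apply subset_closure
    refine ⟨(s / t) • p.2, ?_⟩
    have h5 := hsc p hpF (s / t) (s / t) (mul_self_pos.mpr (div_ne_zero hs0 ht))
    have h6 : (s / t) • p.1 = cr (w 0) (w 2) := by
      rw [hpt, hex, smul_smul, div_mul_cancel₀ _ ht]
    rw [h6] at h5
    exact h5
  have hw1 : ∀ p ∈ F.fl, ∀ t : ℝ, p.2 ≠ t • ((w 1 ⬝ᵥ v 1)⁻¹ • w 1) := by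
    intro p hpF t hpt
    have ht : t ≠ 0 := by
      rintro rfl
      rw [zero_smul] at hpt
      exact hpF.2.2 hpt
    have hex := expand' dual (cr (v 0) (v 2))
    have ha : cr (v 0) (v 2) ⬝ᵥ v 0 = 0 := by
      rw [dotProduct_comm, dot_cr_left]
    have hb : cr (v 0) (v 2) ⬝ᵥ v 2 = 0 := by
      rw [dotProduct_comm, dot_cr_right]
    rw [ha, hb, zero_smul, zero_smul, zero_add, add_zero] at hex
    set s := cr (v 0) (v 2) ⬝ᵥ v 1 with hs
    have hs0 : s ≠ 0 := by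
      intro h0
      rw [h0, zero_smul] at hex
      exact hc2 (Or.inr hex)
    apply hc2
    left
    apply subset_closure
    refine ⟨(s / t) • p.1, ?_⟩
    have h5 := hsc p hpF (s / t) (s / t) (mul_self_pos.mpr (div_ne_zero hs0 ht))
    have h6 : (s / t) • p.2 = cr (v 0) (v 2) := by
      rw [hpt, hex, smul_smul (s / t), div_mul_cancel₀ _ ht]
    rw [h6] at h5
    exact h5
  have hvd : ∀ i, F.m (h ^ 2) *ᵥ v i = (ν' i) ^ 2 • v i := fun i => m_pow_v (hv' i) 2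
  have hwd : ∀ i, ((w i ⬝ᵥ v i)⁻¹ • w i) ᵥ* F.m (h ^ 2) =
      (ν' i) ^ 2 • ((w i ⬝ᵥ v i)⁻¹ • w i) := by
    intro i
    rw [smul_vecMul, m_pow_w (hw' i) 2, smul_comm]
  have p2 : 0 < (ν' 2) ^ 2 := by
    rw [← sq_abs]
    positivity
  have l1 : (ν' 2) ^ 2 < (ν' 1) ^ 2 := sq_lt_sq.mpr hν2
  have l0 : (ν' 1) ^ 2 < (ν' 0) ^ 2 := sq_lt_sq.mpr hν1
  have p1 := p2.trans l1
  have p0 := p1.trans l0
  have hPG : PG F (h ^ 2) v (fun i => (w i ⬝ᵥ v i)⁻¹ • w i) (fun i => (ν' i) ^ 2) :=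
    ⟨hvd, hwd, dual, p2, l1, l0, hv1, hw1⟩
  refine ⟨h ^ 2, v, fun i => (w i ⬝ᵥ v i)⁻¹ • w i, fun i => (ν' i) ^ 2,
    hvd, hwd, dual, p2, l1, l0, ?_, ?_, hv1, hw1⟩
  · -- top
    obtain ⟨ψ, hψ⟩ := hl F (fun n => (h ^ 2) ^ n) (fun n => ((ν' 0) ^ 2) ^ n) (v 0)
      ((w 0 ⬝ᵥ v 0)⁻¹ • w 0) (v_ne dual 0) (w_ne dual 0)
      (lim_rank1 dual (h ^ 2) (fun i => (ν' i) ^ 2) 0 hvd (by
        intro i hi
        show |(ν' i) ^ 2| < |(ν' 0) ^ 2|
        rw [abs_of_pos p0]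
        fin_cases i
        · exact absurd rfl hi
        · show |(ν' 1) ^ 2| < _
          rw [abs_of_pos p1]
          exact l0
        · show |(ν' 2) ^ 2| < _
          rw [abs_of_pos p2]
          exact l1.trans l0) p0.ne')
    obtain ⟨t, ht⟩ := (good2' hf hPG _ hψ).2.2.1 (hdot _ hψ)
    have ht' : ψ = t • ((w 2 ⬝ᵥ v 2)⁻¹ • w 2) := ht
    refine ⟨t, ?_, ?_⟩
    · rintro rfl
      rw [zero_smul] at ht'
      exact hψ.2.2 ht'
    · show (v 0, t • ((w 2 ⬝ᵥ v 2)⁻¹ • w 2)) ∈ F.fl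
      rw [← ht']
      exact hψ
  · -- bottom
    obtain ⟨ψ, hψ⟩ := hl F (fun n => ((h ^ 2)⁻¹) ^ n) (fun n => (((ν' 2) ^ 2)⁻¹) ^ n) (v 2)
      ((w 2 ⬝ᵥ v 2)⁻¹ • w 2) (v_ne dual 2) (w_ne dual 2)
      (lim_rank1 dual (h ^ 2)⁻¹ (fun i => ((ν' i) ^ 2)⁻¹) 2 (by
        intro i
        apply m_inv_v (hvd i)
        fin_cases i
        · exact p0.ne'
        · exact p1.ne'
        · exact p2.ne') (by
        intro i hi
        show |((ν' i) ^ 2)⁻¹| < |((ν' 2) ^ 2)⁻¹|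
        rw [abs_of_pos (inv_pos.mpr p2)]
        fin_cases i
        · show |((ν' 0) ^ 2)⁻¹| < _
          rw [abs_of_pos (inv_pos.mpr p0)]
          exact inv_strictAnti₀ p2 (l1.trans l0)
        · show |((ν' 1) ^ 2)⁻¹| < _
          rw [abs_of_pos (inv_pos.mpr p1)]
          exact inv_strictAnti₀ p2 l1
        · exact absurd rfl hi) (inv_pos.mpr p2).ne')
    obtain ⟨t, ht⟩ := (good2' hf hPG _ hψ).2.2.2 (hdot _ hψ)
    have ht' : ψ = t • ((w 0 ⬝ᵥ v 0)⁻¹ • w 0) := ht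
    refine ⟨t, ?_, ?_⟩
    · rintro rfl
      rw [zero_smul] at ht'
      exact hψ.2.2 ht'
    · show (v 2, t • ((w 0 ⬝ᵥ v 0)⁻¹ • w 0)) ∈ F.fl
      rw [← ht']
      exact hψ

end Pool.Agent.Helper65.K3.good
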