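import Pool.Agent.Helper77.K3.DefsII

/-!
# Assembly of the reducible case
-/

set_option autoImplicit false

open Set Filter Topology Matrix

namespace Pool.Agent.Helper65.K3.red

open Pool.Agent.Helper77.K3

/-! ## Passing to subgroups of finite index -/

theorem sub_data (hFI : S_FI) (D : KData) (H : Subgroup D.Γ) (hH : H.FiniteIndex) :
    ∃ D' : KData, D'.Ω = D.Ω ∧ ∀ γ, γ ∈ D'.Γ → ∃ h : γ ∈ D.Γ, (⟨γ, h⟩ : D.Γ) ∈ H := by
  have h1 : H.map D.Γ.subtype ≤ D.Γ := Subgroup.map_subtype_le H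
  have h2 : (H.map D.Γ.subtype).subgroupOf D.Γ = H :=
    Subgroup.comap_map_eq_self_of_injective D.Γ.subtype_injective H
  obtain ⟨D', hΓ, hΩ⟩ := hFI D (H.map D.Γ.subtype) h1 (by rw [h2]; exact hH)
  refine ⟨D', hΩ, fun γ hγ => ?_⟩
  rw [hΓ] at hγ
  obtain ⟨x, hx, rfl⟩ := hγ
  exact ⟨x.2, hx⟩

theorem pos_data (hFI : S_FI) (D : KData) (f : Aff3 → ℝ) (h1 : f 1 = 1)
    (hmul : ∀ γ ∈ D.Γ, ∀ δ ∈ D.Γ, f (γ * δ) = f γ * f δ) :
    ∃ D' : KData, D'.Ω = D.Ω ∧ (∀ γ ∈ D'.Γ, γ ∈ D.Γ) ∧ ∀ γ ∈ D'.Γ, 0 < f γ := by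
  let F : D.Γ →* ℝ :=
    { toFun := fun γ => f γ.1
      map_one' := h1
      map_mul' := fun γ δ => hmul γ.1 γ.2 δ.1 δ.2 }
  let s : D.Γ →* SignTypeˣ := ((signHom : ℝ →*₀ SignType).toMonoidHom.comp F).toHomUnits
  have hfin : s.ker.FiniteIndex := inferInstance
  obtain ⟨D', hΩ, hD'⟩ := sub_data hFI D s.ker hfin
  refine ⟨D', hΩ, fun γ hγ => (hD' γ hγ).1, fun γ hγ => ?_⟩
  obtain ⟨h, hk⟩ := hD' γ hγ
  rw [MonoidHom.mem_ker] at hk
  have h3 : ((s ⟨γ, h⟩ : SignTypeˣ) : SignType) = 1 := by rw [hk]; rfl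
  have h4 : SignType.sign (f γ) = 1 := h3
  exact sign_eq_one_iff.mp h4

/-! ## Conjugation -/

theorem conjM (hconj : S_conj) (hc : S_coord) (D : KData) (B : M3) (hB : B.det ≠ 0) :
    ∃ D' : KData, (D'.Ω = univ → D.Ω = univ) ∧
      ∀ γ ∈ D'.Γ, ∃ γ0 ∈ D.Γ, B * mat γ = mat γ0 * B := by
  obtain ⟨_, _, _, _, hmul, _, _, _, _, hex⟩ := hc
  obtain ⟨ψ, hψ, _, _⟩ := hex B 0 hB
  obtain ⟨D', hΩ, hΓ⟩ := hconj D ψ⁻¹
  refine ⟨D', fun h => ?_, fun γ hγ => ?_⟩
  · rw [eq_univ_iff_forall] at h ⊢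
    intro x
    have h2 := h (ψ⁻¹ x)
    rw [hΩ] at h2
    obtain ⟨y, hy, hxy⟩ := h2
    rw [← (ψ⁻¹ : Aff3).injective hxy]
    exact hy
  · refine ⟨ψ * γ * ψ⁻¹, ?_, ?_⟩
    · have := (hΓ γ).mp hγ
      rw [inv_inv] at this
      exact this
    · have h3 : ψ * γ * ψ⁻¹ * ψ = ψ * γ := by group
      have h4 := congrArg mat h3
      rw [hmul, hmul ψ γ, hψ] at h4
      exact h4.symm

/-! ## The triangular case -/

theorem tri (hFI : S_FI) (hc : S_coord) (hT : S_T) (D : KData)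
    (h : ∀ γ ∈ D.Γ, lin γ 1 0 = 0 ∧ lin γ 2 0 = 0 ∧ lin γ 2 1 = 0) : D.Ω = univ := by
  have hmul := hc.2.1
  have h1 : mat 1 = 1 := hc.2.2.2.2.2.1
  have hone : ∀ i, lin 1 i i = 1 := by
    intro i
    have := congrFun (congrFun h1 i) i
    rw [Matrix.one_apply_eq] at this
    exact this
  obtain ⟨D0, hΩ0, hle0, hp0⟩ := pos_data hFI D (fun γ => lin γ 0 0) (hone 0) (by
    intro γ hγ δ hδ
    obtain ⟨a, b, _⟩ := h δ hδ
    show lin (γ * δ) 0 0 = _
    rw [hmul, a, b, mul_zero, mul_zero, add_zero, add_zero])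
  obtain ⟨D1, hΩ1, hle1, hp1⟩ := pos_data hFI D0 (fun γ => lin γ 1 1) (hone 1) (by
    intro γ hγ δ hδ
    obtain ⟨a, _, _⟩ := h γ (hle0 γ hγ)
    obtain ⟨_, _, b⟩ := h δ (hle0 δ hδ)
    show lin (γ * δ) 1 1 = _
    rw [hmul, a, b, zero_mul, zero_add, mul_zero, add_zero])
  obtain ⟨D2, hΩ2, hle2, hp2⟩ := pos_data hFI D1 (fun γ => lin γ 2 2) (hone 2) (by
    intro γ hγ δ hδ
    obtain ⟨_, a, b⟩ := h γ (hle0 γ (hle1 γ hγ))
    show lin (γ * δ) 2 2 = _
    rw [hmul, a, b, zero_mul, zero_mul, zero_add, zero_add])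
  rw [← hΩ0, ← hΩ1, ← hΩ2]
  apply hT
  intro γ hγ
  obtain ⟨a, b, c⟩ := h γ (hle0 γ (hle1 γ (hle2 γ hγ)))
  have p0 := hp0 γ (hle1 γ (hle2 γ hγ))
  have p1 := hp1 γ (hle2 γ hγ)
  have p2 := hp2 γ hγ
  refine ⟨a, b, c, p0, p1, p2, ?_⟩
  have hd := D2.det γ hγ
  rw [← hc.2.2.2.2.2.2.2.1, Matrix.det_fin_three] at hd
  have a' : mat γ 1 0 = 0 := a
  have b' : mat γ 2 0 = 0 := b
  have c' : mat γ 2 1 = 0 := c
  rw [a', b', c'] at hd
  have e0 : mat γ 0 0 = lin γ 0 0 := rfl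
  have e1 : mat γ 1 1 = lin γ 1 1 := rfl
  have e2 : mat γ 2 2 = lin γ 2 2 := rfl
  rw [e0, e1, e2] at hd
  have h5 : 0 < lin γ 0 0 * lin γ 1 1 * lin γ 2 2 := by positivity
  simp only [mul_zero, zero_mul, sub_zero, add_zero] at hd
  rwa [abs_of_pos h5] at hd

/-! ## Blocks -/

/-- Upper left embedding. -/
def embP (P : M2) : M3 := !![P 0 0, P 0 1, 0; P 1 0, P 1 1, 0; 0, 0, 1]

/-- Lower right embedding. -/
def embL (P : M2) : M3 := !![1, 0, 0; 0, P 0 0, P 0 1; 0, P 1 0, P 1 1]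

/-- Upper left block. -/
def blkP (M : M3) : M2 := !![M 0 0, M 0 1; M 1 0, M 1 1]

/-- Lower right block. -/
def blkL (M : M3) : M2 := !![M 1 1, M 1 2; M 2 1, M 2 2]

theorem det_embP (P : M2) : (embP P).det = P.det := by
  rw [Matrix.det_fin_three, Matrix.det_fin_two]
  simp [embP]

theorem det_embL (P : M2) : (embL P).det = P.det := by
  rw [Matrix.det_fin_three, Matrix.det_fin_two]
  simp [embL]

theorem relP (P : M2) (M M0 : M3) (h : embP P * M = M0 * embP P) :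
    P * blkP M = blkP M0 * P ∧ (M0 2 0 = 0 → M0 2 1 = 0 → M 2 0 = 0 ∧ M 2 1 = 0 ∧
      M 2 2 = M0 2 2) := by
  have hij : ∀ i j, (embP P * M) i j = (M0 * embP P) i j := fun i j => by rw [h]
  simp only [Matrix.mul_apply, Fin.sum_univ_three] at hij
  refine ⟨?_, fun a b => ?_⟩
  · ext i j
    fin_cases i <;> fin_cases j
    · have := hij 0 0
      simp [embP] at this
      simp [blkP, Matrix.mul_apply, Fin.sum_univ_two]
      linarith
    · have := hij 0 1
      simp [embP] at this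
      simp [blkP, Matrix.mul_apply, Fin.sum_univ_two]
      linarith
    · have := hij 1 0
      simp [embP] at this
      simp [blkP, Matrix.mul_apply, Fin.sum_univ_two]
      linarith
    · have := hij 1 1
      simp [embP] at this
      simp [blkP, Matrix.mul_apply, Fin.sum_univ_two]
      linarith
  · have h0 := hij 2 0
    have h1 := hij 2 1
    have h2 := hij 2 2
    simp [embP, a, b] at h0 h1 h2
    exact ⟨h0, h1, h2⟩

theorem relL (P : M2) (hP : P.det ≠ 0) (M M0 : M3) (h : embL P * M = M0 * embL P) :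
    P * blkL M = blkL M0 * P ∧ (M0 1 0 = 0 → M0 2 0 = 0 → M 1 0 = 0 ∧ M 2 0 = 0 ∧
      M 0 0 = M0 0 0) := by
  have hij : ∀ i j, (embL P * M) i j = (M0 * embL P) i j := fun i j => by rw [h]
  simp only [Matrix.mul_apply, Fin.sum_univ_three] at hij
  refine ⟨?_, fun a b => ?_⟩
  · ext i j
    fin_cases i <;> fin_cases j
    · have := hij 1 1
      simp [embL] at this
      simp [blkL, Matrix.mul_apply, Fin.sum_univ_two]
      linarith
    · have := hij 1 2
      simp [embL] at this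
      simp [blkL, Matrix.mul_apply, Fin.sum_univ_two]
      linarith
    · have := hij 2 1
      simp [embL] at this
      simp [blkL, Matrix.mul_apply, Fin.sum_univ_two]
      linarith
    · have := hij 2 2
      simp [embL] at this
      simp [blkL, Matrix.mul_apply, Fin.sum_univ_two]
      linarith
  · have h0 := hij 0 0
    have h1 := hij 1 0
    have h2 := hij 2 0
    simp [embL, a, b] at h0 h1 h2
    rw [Matrix.det_fin_two] at hP
    refine ⟨?_, ?_, h0⟩
    · have : (P 0 0 * P 1 1 - P 0 1 * P 1 0) * M 1 0 = 0 := by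
        linear_combination P 1 1 * h1 - P 0 1 * h2
      rcases mul_eq_zero.mp this with h3 | h3
      · exact absurd h3 hP
      · exact h3
    · have : (P 0 0 * P 1 1 - P 0 1 * P 1 0) * M 2 0 = 0 := by
        linear_combination P 0 0 * h2 - P 1 0 * h1
      rcases mul_eq_zero.mp this with h3 | h3
      · exact absurd h3 hP
      · exact h3

/-- The representation on the invariant plane. -/
def rhoP (hc : S_coord) (D : KData) (hD : D.PlaneInv) : D.Γ →* M2 where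
  toFun γ := !![lin γ.1 0 0, lin γ.1 0 1; lin γ.1 1 0, lin γ.1 1 1]
  map_one' := by
    have h1 : mat 1 = 1 := hc.2.2.2.2.2.1
    have h2 : ∀ i j, lin 1 i j = (1 : M3) i j := fun i j => congrFun (congrFun h1 i) j
    show !![lin 1 0 0, lin 1 0 1; lin 1 1 0, lin 1 1 1] = 1
    simp only [h2]
    ext i j
    fin_cases i <;> fin_cases j <;> simp
  map_mul' γ δ := by
    have hmul := hc.2.1
    obtain ⟨a, b⟩ := hD δ.1 δ.2
    show !![lin (γ.1 * δ.1) 0 0, lin (γ.1 * δ.1) 0 1; lin (γ.1 * δ.1) 1 0,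
      lin (γ.1 * δ.1) 1 1] = _
    simp only [hmul, a, b]
    ext i j
    fin_cases i <;> fin_cases j <;> simp [Matrix.mul_apply, Fin.sum_univ_two]

/-- The representation on the quotient by the invariant line. -/
def rhoL (hc : S_coord) (D : KData) (hD : D.LineInv) : D.Γ →* M2 where
  toFun γ := !![lin γ.1 1 1, lin γ.1 1 2; lin γ.1 2 1, lin γ.1 2 2]
  map_one' := by
    have h1 : mat 1 = 1 := hc.2.2.2.2.2.1
    have h2 : ∀ i j, lin 1 i j = (1 : M3) i j := fun i j => congrFun (congrFun h1 i) j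
    show !![lin 1 1 1, lin 1 1 2; lin 1 2 1, lin 1 2 2] = 1
    simp only [h2]
    ext i j
    fin_cases i <;> fin_cases j <;> simp
  map_mul' γ δ := by
    have hmul := hc.2.1
    obtain ⟨a, b⟩ := hD γ.1 γ.2
    show !![lin (γ.1 * δ.1) 1 1, lin (γ.1 * δ.1) 1 2; lin (γ.1 * δ.1) 2 1,
      lin (γ.1 * δ.1) 2 2] = _
    simp only [hmul, a, b]
    ext i j
    fin_cases i <;> fin_cases j <;> simp [Matrix.mul_apply, Fin.sum_univ_two]

/-- An invariant line of a representation which is not strongly irreducible. -/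
theorem inv_line {G : Type} [Group G] (ρ : G →* M2) (h : ¬ StrIrr (linRep2 ρ)) :
    ∃ (H : Subgroup G) (P : M2), H.FiniteIndex ∧ P.det ≠ 0 ∧
      ∀ f ∈ H, ∀ X : M2, P * X = ρ f * P → X 1 0 = 0 := by
  unfold StrIrr at h
  push Not at h
  obtain ⟨H, hH, U, hU, hb, ht⟩ := h
  have hlt : Module.finrank ℝ U < 2 := by
    have h1 := Submodule.finrank_lt ht
    rwa [Module.finrank_fin_fun] at h1
  have hpos : 0 < Module.finrank ℝ U := by
    have := Submodule.nontrivial_iff_ne_bot.mpr hb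
    exact Module.finrank_pos
  obtain ⟨u, hu0, hu⟩ := finrank_eq_one_iff'.mp (show Module.finrank ℝ U = 1 by omega)
  have hu0' : (u : Fin 2 → ℝ) ≠ 0 := by
    intro h
    exact hu0 (Subtype.ext h)
  have hdet : 0 < u.1 0 ^ 2 + u.1 1 ^ 2 := by
    by_contra hcon
    apply hu0'
    have h0 : u.1 0 ^ 2 = 0 := by nlinarith [sq_nonneg (u.1 0), sq_nonneg (u.1 1)]
    have h1 : u.1 1 ^ 2 = 0 := by nlinarith [sq_nonneg (u.1 0), sq_nonneg (u.1 1)]
    funext i
    fin_cases i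
    · exact pow_eq_zero_iff (two_ne_zero) |>.mp h0
    · exact pow_eq_zero_iff (two_ne_zero) |>.mp h1
  refine ⟨H, !![u.1 0, -u.1 1; u.1 1, u.1 0], hH, ?_, ?_⟩
  · rw [Matrix.det_fin_two]
    simp only [Matrix.of_apply, Matrix.cons_val', Matrix.cons_val_zero, Matrix.cons_val_one,
      Matrix.cons_val_fin_one]
    nlinarith
  · intro f hf X hX
    obtain ⟨c, hc⟩ := hu ⟨_, hU f hf u.1 u.2⟩
    have hc' : c • u.1 = ρ f *ᵥ u.1 := congrArg Subtype.val hc
    have c0 := congrFun hc' 0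
    have c1 := congrFun hc' 1
    simp only [mulVec, dotProduct, Fin.sum_univ_two, Pi.smul_apply, smul_eq_mul] at c0 c1
    have h00 := congrFun (congrFun hX 0) 0
    have h10 := congrFun (congrFun hX 1) 0
    simp [Matrix.mul_apply, Fin.sum_univ_two] at h00 h10
    have : (u.1 0 ^ 2 + u.1 1 ^ 2) * X 1 0 = 0 := by
      linear_combination u.1 0 * h10 - u.1 1 * h00 - u.1 0 * c1 + u.1 1 * c0
    rcases mul_eq_zero.mp this with h3 | h3
    · exact absurd h3 hdet.ne'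
    · exact h3

/-! ## The plane case -/

theorem plane (hFI : S_FI) (hconj : S_conj) (hA : S_2An) (hS1 : S_S1) (hT : S_T) (hcf : S_conf2)
    (hc : S_coord) (D : KData) (hD : D.PlaneInv) : D.Ω = univ := by
  by_cases hirr : StrIrr (linRep2 (rhoP hc D hD))
  · by_cases hbd : BddMod (rhoP hc D hD)
    · -- conformal block
      have hmul := hc.2.1
      have h1 : mat 1 = 1 := hc.2.2.2.2.2.1
      have hone : ∀ i, lin 1 i i = 1 := by
        intro i
        have := congrFun (congrFun h1 i) i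
        rw [Matrix.one_apply_eq] at this
        exact this
      obtain ⟨D0, hΩ0, hle0, hp0⟩ := pos_data hFI D (fun γ => lin γ 2 2) (hone 2) (by
        intro γ hγ δ hδ
        obtain ⟨a, b⟩ := hD γ hγ
        show lin (γ * δ) 2 2 = _
        rw [hmul, a, b, zero_mul, zero_mul, zero_add, zero_add])
      have hone' : ∀ i j, lin 1 i j = (1 : M3) i j := fun i j => congrFun (congrFun h1 i) j
      obtain ⟨D1, hΩ1, hle1, hp1⟩ := pos_data hFI D0
        (fun γ => lin γ 0 0 * lin γ 1 1 - lin γ 0 1 * lin γ 1 0) (by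
          show lin 1 0 0 * lin 1 1 1 - lin 1 0 1 * lin 1 1 0 = 1
          simp [hone']) (by
        intro γ hγ δ hδ
        obtain ⟨a, b⟩ := hD δ (hle0 δ hδ)
        simp only [hmul, a, b]
        ring)
      have hD1 : D1.PlaneInv := fun γ hγ => hD γ (hle0 γ (hle1 γ hγ))
      have hbd1 : BddMod (rhoP hc D1 hD1) := by
        obtain ⟨R, hR⟩ := hbd
        exact ⟨R, fun f i j => hR ⟨f.1, hle0 _ (hle1 _ f.2)⟩ i j⟩
      obtain ⟨Q, hQ, hQf⟩ := hcf D1.Γ (rhoP hc D1 hD1) (by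
        intro f
        rw [Matrix.det_fin_two]
        exact hp1 f.1 f.2) hbd1
      have hQu : IsUnit Q.det := isUnit_iff_ne_zero.mpr hQ
      have hQi : Q⁻¹.det ≠ 0 := by
        rw [Matrix.det_nonsing_inv, Ring.inverse_eq_inv']
        exact inv_ne_zero hQ
      obtain ⟨D2, hΩ2, hD2⟩ := conjM hconj hc D1 (embP Q⁻¹) (by rw [det_embP]; exact hQi)
      rw [← hΩ0, ← hΩ1]
      apply hΩ2
      apply hS1 D2
      · intro γ hγ
        obtain ⟨γ0, hγ0, hrel⟩ := hD2 γ hγ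
        obtain ⟨a, b⟩ := hD1 γ0 hγ0
        obtain ⟨c, d, _⟩ := (relP _ _ _ hrel).2 a b
        exact ⟨c, d⟩
      · intro γ hγ
        obtain ⟨γ0, hγ0, hrel⟩ := hD2 γ hγ
        obtain ⟨a, b⟩ := hD1 γ0 hγ0
        obtain ⟨hblk, h3⟩ := relP _ _ _ hrel
        obtain ⟨_, _, c⟩ := h3 a b
        obtain ⟨e1, e2⟩ := hQf ⟨γ0, hγ0⟩
        have h4 : blkP (mat γ) = Q * blkP (mat γ0) * Q⁻¹ := by
          calc blkP (mat γ) = Q * Q⁻¹ * blkP (mat γ) := by
                rw [Matrix.mul_nonsing_inv _ hQu, one_mul]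
            _ = Q * blkP (mat γ0) * Q⁻¹ := by rw [mul_assoc, hblk, mul_assoc]
        have h5 : rhoP hc D1 hD1 ⟨γ0, hγ0⟩ = blkP (mat γ0) := rfl
        rw [h5, ← h4] at e1 e2
        refine ⟨e1, e2, ?_⟩
        have h6 : lin γ 2 2 = lin γ0 2 2 := c
        rw [h6]
        exact hp0 γ0 (hle1 γ0 hγ0)
    · exact (hA D hD (rhoP hc D hD) (fun γ => rfl) hirr hbd).elim
  · -- triangular
    obtain ⟨H, P, hH, hP, hinv⟩ := inv_line _ hirr
    obtain ⟨D1, hΩ1, hD1⟩ := sub_data hFI D H hH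
    obtain ⟨D2, hΩ2, hD2⟩ := conjM hconj hc D1 (embP P) (by rw [det_embP]; exact hP)
    rw [← hΩ1]
    apply hΩ2
    apply tri hFI hc hT D2
    intro γ hγ
    obtain ⟨γ0, hγ0, hrel⟩ := hD2 γ hγ
    obtain ⟨hm, hγH⟩ := hD1 γ0 hγ0
    obtain ⟨a, b⟩ := hD γ0 hm
    obtain ⟨hblk, h3⟩ := relP _ _ _ hrel
    obtain ⟨c, d, _⟩ := h3 a b
    exact ⟨hinv _ hγH (blkP (mat γ)) hblk, c, d⟩

theorem line (hFI : S_FI) (hconj : S_conj) (hB : S_2Bn) (hS2 : S_S2) (hT : S_T) (hcf : S_conf2)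
    (hc : S_coord) (D : KData) (hD : D.LineInv) : D.Ω = univ := by
  by_cases hirr : StrIrr (linRep2 (rhoL hc D hD))
  · by_cases hbd : BddMod (rhoL hc D hD)
    · -- conformal block
      have hmul := hc.2.1
      have h1 : mat 1 = 1 := hc.2.2.2.2.2.1
      have hone' : ∀ i j, lin 1 i j = (1 : M3) i j := fun i j => congrFun (congrFun h1 i) j
      obtain ⟨D0, hΩ0, hle0, hp0⟩ := pos_data hFI D (fun γ => lin γ 0 0) (by
        show lin 1 0 0 = 1
        simp [hone']) (by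
        intro γ hγ δ hδ
        obtain ⟨a, b⟩ := hD δ hδ
        show lin (γ * δ) 0 0 = _
        rw [hmul, a, b, mul_zero, mul_zero, add_zero, add_zero])
      obtain ⟨D1, hΩ1, hle1, hp1⟩ := pos_data hFI D0
        (fun γ => lin γ 1 1 * lin γ 2 2 - lin γ 1 2 * lin γ 2 1) (by
          show lin 1 1 1 * lin 1 2 2 - lin 1 1 2 * lin 1 2 1 = 1
          simp [hone']) (by
        intro γ hγ δ hδ
        obtain ⟨a, b⟩ := hD γ (hle0 γ hγ)
        simp only [hmul, a, b]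
        ring)
      have hD1 : D1.LineInv := fun γ hγ => hD γ (hle0 γ (hle1 γ hγ))
      have hbd1 : BddMod (rhoL hc D1 hD1) := by
        obtain ⟨R, hR⟩ := hbd
        exact ⟨R, fun f i j => hR ⟨f.1, hle0 _ (hle1 _ f.2)⟩ i j⟩
      obtain ⟨Q, hQ, hQf⟩ := hcf D1.Γ (rhoL hc D1 hD1) (by
        intro f
        rw [Matrix.det_fin_two]
        exact hp1 f.1 f.2) hbd1
      have hQu : IsUnit Q.det := isUnit_iff_ne_zero.mpr hQ
      have hQi : Q⁻¹.det ≠ 0 := by
        rw [Matrix.det_nonsing_inv, Ring.inverse_eq_inv']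
        exact inv_ne_zero hQ
      obtain ⟨D2, hΩ2, hD2⟩ := conjM hconj hc D1 (embL Q⁻¹) (by rw [det_embL]; exact hQi)
      rw [← hΩ0, ← hΩ1]
      apply hΩ2
      apply hS2 D2
      · intro γ hγ
        obtain ⟨γ0, hγ0, hrel⟩ := hD2 γ hγ
        obtain ⟨a, b⟩ := hD1 γ0 hγ0
        obtain ⟨c, d, _⟩ := (relL _ hQi _ _ hrel).2 a b
        exact ⟨c, d⟩
      · intro γ hγ
        obtain ⟨γ0, hγ0, hrel⟩ := hD2 γ hγ
        obtain ⟨a, b⟩ := hD1 γ0 hγ0
        obtain ⟨hblk, h3⟩ := relL _ hQi _ _ hrel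
        obtain ⟨_, _, c⟩ := h3 a b
        obtain ⟨e1, e2⟩ := hQf ⟨γ0, hγ0⟩
        have h4 : blkL (mat γ) = Q * blkL (mat γ0) * Q⁻¹ := by
          calc blkL (mat γ) = Q * Q⁻¹ * blkL (mat γ) := by
                rw [Matrix.mul_nonsing_inv _ hQu, one_mul]
            _ = Q * blkL (mat γ0) * Q⁻¹ := by rw [mul_assoc, hblk, mul_assoc]
        have h5 : rhoL hc D1 hD1 ⟨γ0, hγ0⟩ = blkL (mat γ0) := rfl
        rw [h5, ← h4] at e1 e2
        refine ⟨e1, e2, ?_⟩
        have h6 : lin γ 0 0 = lin γ0 0 0 := c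
        rw [h6]
        exact hp0 γ0 (hle1 γ0 hγ0)
    · exact hB D hD (rhoL hc D hD) (fun γ => rfl) hirr hbd
  · -- triangular
    obtain ⟨H, P, hH, hP, hinv⟩ := inv_line _ hirr
    obtain ⟨D1, hΩ1, hD1⟩ := sub_data hFI D H hH
    obtain ⟨D2, hΩ2, hD2⟩ := conjM hconj hc D1 (embL P) (by rw [det_embL]; exact hP)
    rw [← hΩ1]
    apply hΩ2
    apply tri hFI hc hT D2
    intro γ hγ
    obtain ⟨γ0, hγ0, hrel⟩ := hD2 γ hγ
    obtain ⟨hm, hγH⟩ := hD1 γ0 hγ0
    obtain ⟨a, b⟩ := hD γ0 hm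
    obtain ⟨hblk, h3⟩ := relL _ hP _ _ hrel
    obtain ⟨c, d, _⟩ := h3 a b
    exact ⟨c, d, hinv _ hγH (blkL (mat γ)) hblk⟩

/-! ## Invariant subspaces -/

theorem exists_col (u : E) (hu : u ≠ 0) : ∃ B : M3, B.det ≠ 0 ∧ ∀ i, B i 0 = u i := by
  by_cases h0 : u 0 = 0
  · by_cases h1 : u 1 = 0
    · have h2 : u 2 ≠ 0 := by
        intro h2
        apply hu
        funext i
        fin_cases i
        · exact h0
        · exact h1
        · exact h2
      refine ⟨!![u 0, 1, 0; u 1, 0, 1; u 2, 0, 0], ?_, ?_⟩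
      · rw [Matrix.det_fin_three]
        simp [h0, h1, h2]
      · intro i
        fin_cases i <;> rfl
    · refine ⟨!![u 0, 1, 0; u 1, 0, 0; u 2, 0, 1], ?_, ?_⟩
      · rw [Matrix.det_fin_three]
        simp [h0, h1]
      · intro i
        fin_cases i <;> rfl
  · refine ⟨!![u 0, 0, 0; u 1, 1, 0; u 2, 0, 1], ?_, ?_⟩
    · rw [Matrix.det_fin_three]
      simp [h0]
    · intro i
      fin_cases i <;> rfl

/-- Reading off columns from `B * M = M0 * B`. -/
theorem col_rel (B M M0 : M3) (hB : B.det ≠ 0) (h : B * M = M0 * B) (j : Fin 3) (x : E)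
    (hx : ∀ i, (M0 *ᵥ (fun k => B k j)) i = ∑ k, B i k * x k) : ∀ i, M i j = x i := by
  have h1 : B *ᵥ (fun k => M k j) = B *ᵥ x := by
    funext i
    have h2 := congrFun (congrFun h i) j
    rw [Matrix.mul_apply, Matrix.mul_apply] at h2
    have h3 := hx i
    simp only [mulVec, dotProduct] at h3 ⊢
    rw [h2, h3]
  have h2 : (fun k => M k j) = x := by
    have hinj := Matrix.mulVec_injective_of_isUnit
      ((Matrix.isUnit_iff_isUnit_det B).mpr (isUnit_iff_ne_zero.mpr hB))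
    exact hinj h1
  intro i
  exact congrFun h2 i

theorem red (hFI : S_FI) (hconj : S_conj) (hA : S_2An) (hB : S_2Bn) (hS1 : S_S1) (hS2 : S_S2)
    (hT : S_T) (hcf : S_conf2) (hc : S_coord) : S_red := by
  intro D Γ' U hle hfi hU hbot htop
  obtain ⟨D1, hΓ1, hΩ1⟩ := hFI D Γ' hle hfi
  rw [← hΩ1]
  have hlinmat : ∀ (γ : Aff3) (x : E), γ.linear x = mat γ *ᵥ x := hc.2.2.2.2.2.2.2.2.1
  have hlt : Module.finrank ℝ U < 3 := by
    have h1 := Submodule.finrank_lt htop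
    rwa [Module.finrank_fin_fun] at h1
  have hpos : 0 < Module.finrank ℝ U := by
    have := Submodule.nontrivial_iff_ne_bot.mpr hbot
    exact Module.finrank_pos
  have hcases : Module.finrank ℝ U = 1 ∨ Module.finrank ℝ U = 2 := by omega
  rcases hcases with h1 | h2
  · obtain ⟨u, hu0, hu⟩ := finrank_eq_one_iff'.mp h1
    have hu0' : (u : E) ≠ 0 := fun h => hu0 (Subtype.ext h)
    obtain ⟨B, hBdet, hBc⟩ := exists_col u.1 hu0'
    obtain ⟨D2, hΩ2, hD2⟩ := conjM hconj hc D1 B hBdet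
    apply hΩ2
    apply line hFI hconj hB hS2 hT hcf hc D2
    intro γ hγ
    obtain ⟨γ0, hγ0, hrel⟩ := hD2 γ hγ
    rw [hΓ1] at hγ0
    obtain ⟨c, hcu⟩ := hu ⟨_, hU γ0 hγ0 u.1 u.2⟩
    have hcu' : c • u.1 = γ0.linear u.1 := congrArg Subtype.val hcu
    rw [hlinmat] at hcu'
    have hcol := col_rel B (mat γ) (mat γ0) hBdet hrel 0 ![c, 0, 0] (by
      intro i
      have h3 : (fun k => B k 0) = u.1 := funext hBc
      rw [h3, ← hcu', Fin.sum_univ_three]
      simp [hBc, mul_comm])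
    exact ⟨hcol 1, hcol 2⟩
  · have b := Module.finBasisOfFinrankEq ℝ U h2
    have hspan : ∀ x : U, ∃ p q : ℝ, (x : E) = p • (b 0 : E) + q • (b 1 : E) := by
      intro x
      refine ⟨b.repr x 0, b.repr x 1, ?_⟩
      have h3 := b.sum_repr x
      rw [Fin.sum_univ_two] at h3
      have h4 := congrArg Subtype.val h3
      exact h4.symm
    have hind : ∀ p q : ℝ, p • (b 0 : E) + q • (b 1 : E) = 0 → p = 0 ∧ q = 0 := by
      intro p q hpq
      have h3 := Fintype.linearIndependent_iff.mp b.linearIndependent ![p, q] (by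
        rw [Fin.sum_univ_two]
        apply Subtype.ext
        exact hpq)
      exact ⟨h3 0, h3 1⟩
    set u : E := (b 0 : E) with hu
    set u' : E := (b 1 : E) with hu'
    -- cross product
    set c0 := u 1 * u' 2 - u 2 * u' 1 with hc0
    set c1 := u 2 * u' 0 - u 0 * u' 2 with hc1
    set c2 := u 0 * u' 1 - u 1 * u' 0 with hc2
    have hne : c0 ^ 2 + c1 ^ 2 + c2 ^ 2 ≠ 0 := by
      intro h3
      have z0 : c0 = 0 := by nlinarith [sq_nonneg c0, sq_nonneg c1, sq_nonneg c2]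
      have z1 : c1 = 0 := by nlinarith [sq_nonneg c0, sq_nonneg c1, sq_nonneg c2]
      have z2 : c2 = 0 := by nlinarith [sq_nonneg c0, sq_nonneg c1, sq_nonneg c2]
      rw [hc0] at z0
      rw [hc1] at z1
      rw [hc2] at z2
      have h4 : (u 0 * u' 0 + u 1 * u' 1 + u 2 * u' 2) • u +
          (-(u 0 ^ 2 + u 1 ^ 2 + u 2 ^ 2)) • u' = 0 := by
        funext i
        fin_cases i
        · simp only [Pi.add_apply, Pi.smul_apply, smul_eq_mul, Pi.zero_apply]
          show (u 0 * u' 0 + u 1 * u' 1 + u 2 * u' 2) * u 0 +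
            -(u 0 ^ 2 + u 1 ^ 2 + u 2 ^ 2) * u' 0 = 0
          linear_combination u 1 * z2 - u 2 * z1
        · simp only [Pi.add_apply, Pi.smul_apply, smul_eq_mul, Pi.zero_apply]
          show (u 0 * u' 0 + u 1 * u' 1 + u 2 * u' 2) * u 1 +
            -(u 0 ^ 2 + u 1 ^ 2 + u 2 ^ 2) * u' 1 = 0
          linear_combination (-u 0) * z2 + u 2 * z0
        · simp only [Pi.add_apply, Pi.smul_apply, smul_eq_mul, Pi.zero_apply]
          show (u 0 * u' 0 + u 1 * u' 1 + u 2 * u' 2) * u 2 +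
            -(u 0 ^ 2 + u 1 ^ 2 + u 2 ^ 2) * u' 2 = 0
          linear_combination u 0 * z1 - u 1 * z0
      obtain ⟨_, h5⟩ := hind _ _ h4
      have a0 : u 0 = 0 := by nlinarith [sq_nonneg (u 0), sq_nonneg (u 1), sq_nonneg (u 2)]
      have a1 : u 1 = 0 := by nlinarith [sq_nonneg (u 0), sq_nonneg (u 1), sq_nonneg (u 2)]
      have a2 : u 2 = 0 := by nlinarith [sq_nonneg (u 0), sq_nonneg (u 1), sq_nonneg (u 2)]
      have h6 : (1 : ℝ) • u + (0 : ℝ) • u' = 0 := by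
        rw [one_smul, zero_smul, add_zero]
        funext i
        fin_cases i
        · exact a0
        · exact a1
        · exact a2
      exact one_ne_zero (hind _ _ h6).1
    have hBdet : (!![u 0, u' 0, c0; u 1, u' 1, c1; u 2, u' 2, c2] : M3).det ≠ 0 := by
      rw [Matrix.det_fin_three]
      simp only [Matrix.of_apply, Matrix.cons_val', Matrix.cons_val_zero, Matrix.cons_val_one,
        Matrix.cons_val_fin_one, Matrix.cons_val]
      intro h3
      apply hne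
      rw [hc0, hc1, hc2] at h3 ⊢
      linear_combination h3
    obtain ⟨D2, hΩ2, hD2⟩ := conjM hconj hc D1 _ hBdet
    apply hΩ2
    apply plane hFI hconj hA hS1 hT hcf hc D2
    intro γ hγ
    obtain ⟨γ0, hγ0, hrel⟩ := hD2 γ hγ
    rw [hΓ1] at hγ0
    constructor
    · obtain ⟨p, q, hpq⟩ := hspan ⟨_, hU γ0 hγ0 _ (b 0).2⟩
      have hpq' : γ0.linear u = p • u + q • u' := hpq
      rw [hlinmat] at hpq'
      have hcol := col_rel _ (mat γ) (mat γ0) hBdet hrel 0 ![p, q, 0] (by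
        intro i
        have h3 : (fun k => (!![u 0, u' 0, c0; u 1, u' 1, c1; u 2, u' 2, c2] : M3) k 0) = u := by
          funext k
          fin_cases k <;> rfl
        rw [h3, hpq', Fin.sum_univ_three]
        fin_cases i <;> simp [mul_comm])
      exact hcol 2
    · obtain ⟨p, q, hpq⟩ := hspan ⟨_, hU γ0 hγ0 _ (b 1).2⟩
      have hpq' : γ0.linear u' = p • u + q • u' := hpq
      rw [hlinmat] at hpq'
      have hcol := col_rel _ (mat γ) (mat γ0) hBdet hrel 1 ![p, q, 0] (by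
        intro i
        have h3 : (fun k => (!![u 0, u' 0, c0; u 1, u' 1, c1; u 2, u' 2, c2] : M3) k 1) = u' := by
          funext k
          fin_cases k <;> rfl
        rw [h3, hpq', Fin.sum_univ_three]
        fin_cases i <;> simp [mul_comm])
      exact hcol 2

end Pool.Agent.Helper65.K3.red
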