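import Pool.Agent.Helper65.K3.good

/-!
# One-sidedness (page, (8.2)-(8.5))
-/

set_option autoImplicit false

open Set Filter Topology Matrix

namespace Pool.Agent.Helper65.K3.side

open Pool.Agent.Helper77.K3 Pool.Agent.Helper65.K3.good

/-- The point with coordinates `(Y, X, 1)`. -/
def pt (v : Fin 3 → E) (X Y : ℝ) : E := Y • v 0 + X • v 1 + v 2

/-- `(X, Y)` is a point of `Λ` in the chart. -/
def Lam (F : FS) (v : Fin 3 → E) (X Y : ℝ) : Prop := ∃ φ, (pt v X Y, φ) ∈ F.fl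

/-- `m` is a slope at `(X, Y)`. -/
def Fl (F : FS) (v : Fin 3 → E) (X Y m : ℝ) : Prop :=
  ∃ φ, (pt v X Y, φ) ∈ F.fl ∧ φ ⬝ᵥ v 1 = - m * (φ ⬝ᵥ v 0)

section

variable {F : FS} {d : F.G} {v w : Fin 3 → E} {μ : Fin 3 → ℝ}

theorem w_pt (dual : ∀ i j, w i ⬝ᵥ v j = if i = j then 1 else 0) (X Y : ℝ) :
    w 0 ⬝ᵥ pt v X Y = Y ∧ w 1 ⬝ᵥ pt v X Y = X ∧ w 2 ⬝ᵥ pt v X Y = 1 := by
  simp [pt, dotProduct_add, dotProduct_smul, dual]

theorem φ_pt (φ : E) (X Y : ℝ) :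
    φ ⬝ᵥ pt v X Y = Y * (φ ⬝ᵥ v 0) + X * (φ ⬝ᵥ v 1) + φ ⬝ᵥ v 2 := by
  simp [pt, dotProduct_add, dotProduct_smul]

theorem chart (hf : S_flag) (hG : F.Good d v w μ) (p : E × E) (hp : p ∈ F.fl)
    (h : w 2 ⬝ᵥ p.1 ≠ 0) :
    (pt v ((w 1 ⬝ᵥ p.1) / (w 2 ⬝ᵥ p.1)) ((w 0 ⬝ᵥ p.1) / (w 2 ⬝ᵥ p.1)),
      (w 2 ⬝ᵥ p.1)⁻¹ • p.2) ∈ F.fl := by
  have h1 := (hf F).2.1 p hp (w 2 ⬝ᵥ p.1)⁻¹ (w 2 ⬝ᵥ p.1)⁻¹ (mul_self_pos.mpr (inv_ne_zero h))
  have h2 : (w 2 ⬝ᵥ p.1)⁻¹ • p.1 =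
      pt v ((w 1 ⬝ᵥ p.1) / (w 2 ⬝ᵥ p.1)) ((w 0 ⬝ᵥ p.1) / (w 2 ⬝ᵥ p.1)) := by
    have h3 := expand hG.dual p.1
    have h4 : (w 2 ⬝ᵥ p.1)⁻¹ • p.1 = (w 2 ⬝ᵥ p.1)⁻¹ •
        ((w 0 ⬝ᵥ p.1) • v 0 + (w 1 ⬝ᵥ p.1) • v 1 + (w 2 ⬝ᵥ p.1) • v 2) :=
      congrArg (fun z : E => (w 2 ⬝ᵥ p.1)⁻¹ • z) h3
    rw [h4]
    unfold pt
    rw [smul_add, smul_add, smul_smul, smul_smul, smul_smul, inv_mul_cancel₀ h, one_smul]
    congr 2
    · rw [div_eq_inv_mul]
    · rw [div_eq_inv_mul]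
  rw [← h2]
  exact h1

theorem φ_ne (h2 : S_good2) (hG : F.Good d v w μ) {X Y : ℝ} {φ : E}
    (h : (pt v X Y, φ) ∈ F.fl) (hdot : φ ⬝ᵥ pt v X Y = 0) : φ ⬝ᵥ v 0 ≠ 0 := by
  intro h0
  obtain ⟨t, ht⟩ := (h2 F d v w μ hG _ h).2.2.1 h0
  have ht' : φ = t • w 2 := ht
  rw [ht', smul_dotProduct, (w_pt hG.dual X Y).2.2, smul_eq_mul, mul_one] at hdot
  apply h.2.2
  show φ = 0
  rw [ht', hdot, zero_smul]

theorem exists_slope (hf : S_flag) (h2 : S_good2) (hG : F.Good d v w μ) {X Y : ℝ}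
    (h : Lam F v X Y) : ∃ m, Fl F v X Y m := by
  obtain ⟨φ, hφ⟩ := h
  have hc := φ_ne h2 hG hφ ((hf F).2.2.2.1 _ hφ)
  refine ⟨-(φ ⬝ᵥ v 1) / (φ ⬝ᵥ v 0), φ, hφ, ?_⟩
  field_simp

theorem nc2 (hf : S_flag) (h2 : S_good2) (hG : F.Good d v w μ) {X Y m X' Y' m' : ℝ}
    (h : Fl F v X Y m) (h' : Fl F v X' Y' m') :
    0 ≤ ((Y' - Y) - m * (X' - X)) * (m' * (X' - X) - (Y' - Y)) := by
  obtain ⟨φ, hφ, hb⟩ := h
  obtain ⟨φ', hφ', hb'⟩ := h'
  obtain ⟨_, _, _, hdot, hNC, _, _, _, _⟩ := hf F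
  have hd := hdot _ hφ
  have hd' := hdot _ hφ'
  have hc := φ_ne h2 hG hφ hd
  have hc' := φ_ne h2 hG hφ' hd'
  obtain ⟨s, hs, htop⟩ := hG.top
  have e1 : 0 ≤ (φ ⬝ᵥ v 0) * ((s • w 2) ⬝ᵥ pt v X Y) := hNC _ hφ _ htop
  have e2 : 0 ≤ (φ' ⬝ᵥ v 0) * ((s • w 2) ⬝ᵥ pt v X' Y') := hNC _ hφ' _ htop
  rw [smul_dotProduct, (w_pt hG.dual _ _).2.2, smul_eq_mul, mul_one] at e1 e2
  have hcc : 0 < (φ ⬝ᵥ v 0) * (φ' ⬝ᵥ v 0) := by
    rcases lt_or_gt_of_ne hs with h | h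
    · have a1 : φ ⬝ᵥ v 0 < 0 := lt_of_le_of_ne (by nlinarith) hc
      have a2 : φ' ⬝ᵥ v 0 < 0 := lt_of_le_of_ne (by nlinarith) hc'
      exact mul_pos_of_neg_of_neg a1 a2
    · have a1 : 0 < φ ⬝ᵥ v 0 := lt_of_le_of_ne (by nlinarith) hc.symm
      have a2 : 0 < φ' ⬝ᵥ v 0 := lt_of_le_of_ne (by nlinarith) hc'.symm
      exact mul_pos a1 a2
  have e3 : 0 ≤ (φ ⬝ᵥ pt v X' Y') * (φ' ⬝ᵥ pt v X Y) := hNC _ hφ _ hφ'
  have hd1 : φ ⬝ᵥ pt v X Y = 0 := hd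
  have hd2 : φ' ⬝ᵥ pt v X' Y' = 0 := hd'
  rw [φ_pt] at hd1 hd2 e3
  rw [φ_pt] at e3
  rw [hb] at hd1 e3
  rw [hb'] at hd2 e3
  set c := φ ⬝ᵥ v 0
  set c' := φ' ⬝ᵥ v 0
  set a := φ ⬝ᵥ v 2
  set a' := φ' ⬝ᵥ v 2
  have ha : a = -(Y * c + X * (-m * c)) := by linarith
  have ha' : a' = -(Y' * c' + X' * (-m' * c')) := by linarith
  rw [ha, ha'] at e3
  have e4 : 0 ≤ (c * c') * (((Y' - Y) - m * (X' - X)) * (m' * (X' - X) - (Y' - Y))) := by
    have : (Y' * c + X' * (-m * c) + -(Y * c + X * (-m * c))) *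
        (Y * c' + X * (-m' * c') + -(Y' * c' + X' * (-m' * c'))) =
        (c * c') * (((Y' - Y) - m * (X' - X)) * (m' * (X' - X) - (Y' - Y))) := by ring
    rw [← this]
    exact e3
  exact nonneg_of_mul_nonneg_right e4 hcc

theorem uniq (hf : S_flag) (h2 : S_good2) (hG : F.Good d v w μ) {X Y Y' : ℝ}
    (h : Lam F v X Y) (h' : Lam F v X Y') : Y = Y' := by
  obtain ⟨m, hm⟩ := exists_slope hf h2 hG h
  obtain ⟨m', hm'⟩ := exists_slope hf h2 hG h'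
  have := nc2 hf h2 hG hm hm'
  rw [sub_self, mul_zero, mul_zero, sub_zero, zero_sub] at this
  nlinarith [sq_nonneg (Y' - Y)]

theorem zero (hG : F.Good d v w μ) : Lam F v 0 0 := by
  obtain ⟨s, _, hb⟩ := hG.bot
  refine ⟨s • w 0, ?_⟩
  have : pt v 0 0 = v 2 := by simp [pt]
  rw [this]
  exact hb

theorem act (hf : S_flag) (f : F.G) (c : Fin 3 → ℝ) (hc : ∀ i, F.m f *ᵥ v i = c i • v i)
    (h2 : c 2 ≠ 0) {X Y : ℝ} (h : Lam F v X Y) : Lam F v (c 1 / c 2 * X) (c 0 / c 2 * Y) := by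
  obtain ⟨φ, hφ⟩ := h
  have h3 := (hf F).2.2.1 _ hφ f
  have h4 := (hf F).2.1 _ h3 (c 2)⁻¹ (c 2)⁻¹ (mul_self_pos.mpr (inv_ne_zero h2))
  refine ⟨(c 2)⁻¹ • (φ ᵥ* F.m f⁻¹), ?_⟩
  · have h5 : (c 2)⁻¹ • (F.m f *ᵥ pt v X Y) = pt v (c 1 / c 2 * X) (c 0 / c 2 * Y) := by
      unfold pt
      rw [mulVec_add, mulVec_add, mulVec_smul, mulVec_smul, hc, hc, hc, smul_add, smul_add,
        smul_smul, smul_smul, smul_smul, smul_smul, smul_smul, inv_mul_cancel₀ h2, one_smul]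
      congr 2
      · congr 1
        field_simp
      · congr 1
        field_simp
    rw [← h5]
    exact h4

theorem closed (hf : S_flag) (hG : F.Good d v w μ) {X Y : ℝ} (Xn Yn : ℕ → ℝ)
    (hX : Tendsto Xn atTop (𝓝 X)) (hY : Tendsto Yn atTop (𝓝 Y)) (h : ∀ n, Lam F v (Xn n) (Yn n)) :
    Lam F v X Y := by
  obtain ⟨_, _, _, _, _, _, _, hcl, _⟩ := hf F
  have hne : pt v X Y ≠ 0 := by
    intro h0
    have h1 := (w_pt hG.dual X Y).2.2
    rw [h0, dotProduct_zero] at h1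
    exact zero_ne_one h1
  apply hcl _ _ hne
  have hlim : Tendsto (fun n => pt v (Xn n) (Yn n)) atTop (𝓝 (pt v X Y)) :=
    ((hY.smul_const _).add (hX.smul_const _)).add tendsto_const_nhds
  exact mem_closure_of_tendsto hlim (Eventually.of_forall h)

theorem mu_pos (hG : F.Good d v w μ) : 0 < μ 0 ∧ 0 < μ 1 ∧ 0 < μ 2 :=
  ⟨(hG.pos.trans hG.lt1).trans hG.lt0, hG.pos.trans hG.lt1, hG.pos⟩

theorem scale (hf : S_flag) (hG : F.Good d v w μ) (k : ℕ) {X Y : ℝ} (h : Lam F v X Y) :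
    Lam F v ((μ 2 / μ 1) ^ k * X) ((μ 2 / μ 0) ^ k * Y) := by
  obtain ⟨p0, p1, p2⟩ := mu_pos hG
  have h1 := act hf (d⁻¹ ^ k) (fun i => ((μ i)⁻¹) ^ k) (by
    intro i
    apply m_pow_v
    apply m_inv_v (hG.hv i)
    fin_cases i
    · exact p0.ne'
    · exact p1.ne'
    · exact p2.ne') (pow_ne_zero _ (inv_ne_zero p2.ne')) h
  have e1 : ((μ 1)⁻¹) ^ k / ((μ 2)⁻¹) ^ k = (μ 2 / μ 1) ^ k := by
    rw [← div_pow, inv_div_inv]
  have e2 : ((μ 0)⁻¹) ^ k / ((μ 2)⁻¹) ^ k = (μ 2 / μ 0) ^ k := by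
    rw [← div_pow, inv_div_inv]
  rw [← e1, ← e2]
  exact h1

theorem scale' (hf : S_flag) (hG : F.Good d v w μ) (k : ℕ) {X Y : ℝ} (h : Lam F v X Y) :
    Lam F v ((μ 1 / μ 2) ^ k * X) ((μ 0 / μ 2) ^ k * Y) := by
  obtain ⟨p0, p1, p2⟩ := mu_pos hG
  have h1 := act hf (d ^ k) (fun i => (μ i) ^ k) (by
    intro i
    apply m_pow_v
    exact hG.hv i) (pow_ne_zero _ p2.ne') h
  rw [div_pow, div_pow]
  exact h1

theorem near (hf : S_flag) (h2 : S_good2) (hG : F.Good d v w μ) :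
    ∃ δ > 0, ∀ X Y : ℝ, |X| ≤ δ → Lam F v X Y → |Y| < 1 := by
  by_contra hcon
  push Not at hcon
  obtain ⟨p0, p1, p2⟩ := mu_pos hG
  have hq0 : 0 < μ 2 / μ 0 := div_pos p2 p0
  have hq1 : 1 < μ 0 / μ 2 := (one_lt_div p2).mpr (hG.lt1.trans hG.lt0)
  have hr0 : 0 < μ 2 / μ 1 := div_pos p2 p1
  have hr1 : μ 2 / μ 1 ≤ 1 := ((div_lt_one p1).mpr hG.lt1).le
  have key : ∀ n : ℕ, ∃ X Y : ℝ, |X| ≤ 1 / ((n : ℝ) + 1) ∧ Lam F v X Y ∧ 1 ≤ |Y| ∧
      |Y| ≤ μ 0 / μ 2 := by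
    intro n
    obtain ⟨X, Y, hX, hL, hY⟩ := hcon (1 / ((n : ℝ) + 1)) (by positivity)
    obtain ⟨k, hk1, hk2⟩ := exists_nat_pow_near hY hq1
    refine ⟨(μ 2 / μ 1) ^ k * X, (μ 2 / μ 0) ^ k * Y, ?_, scale hf hG k hL, ?_, ?_⟩
    · rw [abs_mul, abs_of_nonneg (pow_nonneg hr0.le _)]
      calc (μ 2 / μ 1) ^ k * |X| ≤ 1 * |X| :=
            mul_le_mul_of_nonneg_right (pow_le_one₀ hr0.le hr1) (abs_nonneg _)
        _ ≤ _ := by rw [one_mul]; exact hX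
    · rw [abs_mul, abs_of_nonneg (pow_nonneg hq0.le _)]
      calc (1 : ℝ) = (μ 2 / μ 0) ^ k * (μ 0 / μ 2) ^ k := by
            rw [← mul_pow, div_mul_div_comm, mul_comm (μ 2), div_self (mul_pos p0 p2).ne', one_pow]
        _ ≤ (μ 2 / μ 0) ^ k * |Y| := mul_le_mul_of_nonneg_left hk1 (pow_nonneg hq0.le _)
    · rw [abs_mul, abs_of_nonneg (pow_nonneg hq0.le _)]
      calc (μ 2 / μ 0) ^ k * |Y| ≤ (μ 2 / μ 0) ^ k * (μ 0 / μ 2) ^ (k + 1) :=
            mul_le_mul_of_nonneg_left hk2.le (pow_nonneg hq0.le _)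
        _ = μ 0 / μ 2 := by
            rw [pow_succ, ← mul_assoc, ← mul_pow, div_mul_div_comm, mul_comm (μ 2),
              div_self (mul_pos p0 p2).ne', one_pow, one_mul]
  choose X Y hX hL hY1 hY2 using key
  obtain ⟨Y', _, φ, hφ, hlim⟩ := (isCompact_Icc (a := -(μ 0 / μ 2)) (b := μ 0 / μ 2)).tendsto_subseq
    (fun n => abs_le.mp (hY2 n))
  have hX0 : Tendsto X atTop (𝓝 0) := by
    apply squeeze_zero_norm (fun n => ?_) tendsto_one_div_add_atTop_nhds_zero_nat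
    rw [Real.norm_eq_abs]
    exact hX n
  have hL' : Lam F v 0 Y' :=
    closed hf hG (X ∘ φ) (Y ∘ φ) (hX0.comp hφ.tendsto_atTop) hlim (fun n => hL _)
  have h0 := uniq hf h2 hG (zero hG) hL'
  have h1 : 1 ≤ |Y'| := ge_of_tendsto hlim.abs (Eventually.of_forall fun n => hY1 _)
  rw [← h0, abs_zero] at h1
  linarith

theorem bdd (hf : S_flag) (h2 : S_good2) (hG : F.Good d v w μ) (R : ℝ) :
    ∃ B : ℝ, ∀ X Y : ℝ, |X| ≤ R → Lam F v X Y → |Y| ≤ B := by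
  obtain ⟨δ, hδ, hn⟩ := near hf h2 hG
  obtain ⟨p0, p1, p2⟩ := mu_pos hG
  have hq0 : 0 < μ 2 / μ 0 := div_pos p2 p0
  have hr0 : 0 < μ 2 / μ 1 := div_pos p2 p1
  have hr1 : μ 2 / μ 1 < 1 := (div_lt_one p1).mpr hG.lt1
  obtain ⟨k, hk⟩ := exists_pow_lt_of_lt_one (show 0 < δ / (|R| + 1) by positivity) hr1
  refine ⟨((μ 2 / μ 0) ^ k)⁻¹, fun X Y hX hL => ?_⟩
  have h3 := hn _ _ (by
    rw [abs_mul, abs_of_nonneg (pow_nonneg hr0.le _)]
    calc (μ 2 / μ 1) ^ k * |X| ≤ δ / (|R| + 1) * (|R| + 1) := by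
          apply mul_le_mul hk.le _ (abs_nonneg _) (by positivity)
          linarith [le_abs_self R]
      _ = δ := div_mul_cancel₀ _ (by positivity)) (scale hf hG k hL)
  rw [abs_mul, abs_of_nonneg (pow_nonneg hq0.le _)] at h3
  rw [← one_div, le_div_iff₀ (pow_pos hq0 _), mul_comm]
  exact h3.le

/-- The projection of `Λ` to the `X`-axis. -/
def Xs (F : FS) (v : Fin 3 → E) : Set ℝ := {X | ∃ Y, Lam F v X Y}

open Classical in
/-- The function whose graph is `Λ`. -/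
noncomputable def Yf (F : FS) (v : Fin 3 → E) (X : ℝ) : ℝ :=
  if h : ∃ Y, Lam F v X Y then h.choose else 0

theorem Yf_spec {X : ℝ} (h : X ∈ Xs F v) : Lam F v X (Yf F v X) := by
  have h' : ∃ Y, Lam F v X Y := h
  unfold Yf
  rw [dif_pos h']
  exact h'.choose_spec

theorem Yf_eq (hf : S_flag) (h2 : S_good2) (hG : F.Good d v w μ) {X Y : ℝ}
    (h : Lam F v X Y) : Yf F v X = Y :=
  uniq hf h2 hG (Yf_spec ⟨Y, h⟩) h

theorem contY (hf : S_flag) (h2 : S_good2) (hG : F.Good d v w μ) :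
    ContinuousOn (Yf F v) (Xs F v) := by
  rw [Metric.continuousOn_iff]
  intro x hx ε hε
  by_contra hcon
  push Not at hcon
  have key : ∀ n : ℕ, ∃ y ∈ Xs F v, dist y x < 1 / ((n : ℝ) + 1) ∧
      ε ≤ dist (Yf F v y) (Yf F v x) := fun n => hcon _ (by positivity)
  choose y hy hd hε' using key
  obtain ⟨B, hB⟩ := bdd hf h2 hG (|x| + 1)
  have hyb : ∀ n, |y n| ≤ |x| + 1 := by
    intro n
    have h3 := hd n
    rw [Real.dist_eq] at h3
    have h4 : 1 / ((n : ℝ) + 1) ≤ 1 := by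
      rw [div_le_one (by positivity)]
      linarith [(Nat.cast_nonneg n : (0 : ℝ) ≤ n)]
    have h5 := abs_sub_abs_le_abs_sub (y n) x
    linarith
  have hYb : ∀ n, Yf F v (y n) ∈ Icc (-B) B := fun n =>
    abs_le.mp (hB _ _ (hyb n) (Yf_spec (hy n)))
  obtain ⟨Y', _, φ, hφ, hlim⟩ := (isCompact_Icc (a := -B) (b := B)).tendsto_subseq hYb
  have hy0 : Tendsto y atTop (𝓝 x) := by
    rw [tendsto_iff_dist_tendsto_zero]
    exact squeeze_zero (fun n => dist_nonneg) (fun n => (hd n).le)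
      tendsto_one_div_add_atTop_nhds_zero_nat
  have hL : Lam F v x Y' :=
    closed hf hG (y ∘ φ) _ (hy0.comp hφ.tendsto_atTop) hlim (fun n => Yf_spec (hy _))
  have h3 := Yf_eq hf h2 hG hL
  have h4 : Tendsto (fun n => dist ((fun n => Yf F v (y n)) (φ n)) (Yf F v x)) atTop
      (𝓝 (dist Y' (Yf F v x))) := hlim.dist tendsto_const_nhds
  have h5 := ge_of_tendsto h4 (Eventually.of_forall fun n => hε' (φ n))
  rw [h3, dist_self] at h5
  linarith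

theorem zpow_mem (hf : S_flag) (hG : F.Good d v w μ) (n : ℤ) {X : ℝ} (h : X ∈ Xs F v) :
    (μ 2 / μ 1) ^ n * X ∈ Xs F v := by
  obtain ⟨Y, hY⟩ := h
  obtain ⟨p0, p1, p2⟩ := mu_pos hG
  obtain ⟨k, hk | hk⟩ := n.eq_nat_or_neg
  · rw [hk, zpow_natCast]
    exact ⟨_, scale hf hG k hY⟩
  · rw [hk, _root_.zpow_neg, zpow_natCast, ← inv_pow, inv_div]
    exact ⟨_, scale' hf hG k hY⟩

theorem gap (hf : S_flag) (h2 : S_good2) (hG : F.Good d v w μ) (hC : F.Conn) (s t t0 : ℝ)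
    (hs : s = 1 ∨ s = -1) (ht : 0 < t) (ht0 : 0 < t0) (h0 : s * t0 ∈ Xs F v) :
    s * t ∈ Xs F v := by
  by_contra hst
  obtain ⟨p0, p1, p2⟩ := mu_pos hG
  have hss : s * s = 1 := by rcases hs with h | h <;> rw [h] <;> norm_num
  have hsa : |s| = 1 := by rcases hs with h | h <;> rw [h] <;> norm_num
  set r := μ 2 / μ 1 with hr
  have hr0 : 0 < r := div_pos p2 p1
  have hr1 : r < 1 := (div_lt_one p1).mpr hG.lt1
  have hri : 1 < r⁻¹ := (one_lt_inv₀ hr0).mpr hr1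
  have hrst : s * (r * t) ∉ Xs F v := by
    intro h
    apply hst
    have h3 := zpow_mem hf hG (-1) h
    rw [← hr, _root_.zpow_neg, zpow_one] at h3
    have h4 : r⁻¹ * (s * (r * t)) = s * t := by
      field_simp
    rw [h4] at h3
    exact h3
  obtain ⟨n, hn1, hn2⟩ := exists_mem_Ioc_zpow (div_pos ht0 ht) hri
  -- the point in the gap
  have hrn : 0 < r ^ (n + 1) := zpow_pos hr0 _
  have hinv : (r⁻¹) ^ (n + 1) = (r ^ (n + 1))⁻¹ := _root_.inv_zpow _ _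
  have ht1a : r ^ (n + 1) * t0 ≤ t := by
    rw [hinv, div_le_iff₀ ht, ← div_eq_inv_mul, le_div_iff₀ hrn] at hn2
    linarith
  have ht1b : r * t < r ^ (n + 1) * t0 := by
    rw [_root_.inv_zpow, lt_div_iff₀ ht, ← div_eq_inv_mul, div_lt_iff₀ (zpow_pos hr0 _)] at hn1
    have h3 : r ^ (n + 1) = r ^ n * r := zpow_add_one₀ hr0.ne' n
    rw [h3]
    nlinarith
  have hmem : s * (r ^ (n + 1) * t0) ∈ Xs F v := by
    have h3 := zpow_mem hf hG (n + 1) h0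
    have h4 : (μ 2 / μ 1) ^ (n + 1) * (s * t0) = s * (r ^ (n + 1) * t0) := by
      rw [← hr]; ring
    rw [h4] at h3
    exact h3
  set t1 := r ^ (n + 1) * t0 with ht1
  have ht1c : t1 < t := by
    refine lt_of_le_of_ne ht1a ?_
    intro h
    rw [h] at hmem
    exact hst hmem
  obtain ⟨B, hB⟩ := bdd hf h2 hG t
  have cont : ∀ i, Continuous fun x : E => w i ⬝ᵥ x := by
    intro i
    exact Continuous.dotProduct continuous_const continuous_id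
  have hsplit := hC
    ({x | |w 0 ⬝ᵥ x| ≤ B * |w 2 ⬝ᵥ x|} ∩ {x | |w 1 ⬝ᵥ x| ≤ t * |w 2 ⬝ᵥ x|} ∩
      {x | r * t * (w 2 ⬝ᵥ x) ^ 2 ≤ s * (w 1 ⬝ᵥ x) * (w 2 ⬝ᵥ x)})
    ({x | s * (w 1 ⬝ᵥ x) * (w 2 ⬝ᵥ x) ≤ r * t * (w 2 ⬝ᵥ x) ^ 2} ∪
      {x | t * (w 2 ⬝ᵥ x) ^ 2 ≤ s * (w 1 ⬝ᵥ x) * (w 2 ⬝ᵥ x)})
    (((isClosed_le (cont 0).abs (continuous_const.mul (cont 2).abs)).inter
      (isClosed_le (cont 1).abs (continuous_const.mul (cont 2).abs))).inter
      (isClosed_le (continuous_const.mul ((cont 2).pow 2))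
        ((continuous_const.mul (cont 1)).mul (cont 2))))
    ((isClosed_le ((continuous_const.mul (cont 1)).mul (cont 2))
        (continuous_const.mul ((cont 2).pow 2))).union
      (isClosed_le (continuous_const.mul ((cont 2).pow 2))
        ((continuous_const.mul (cont 1)).mul (cont 2))))
    (by
      rintro x ⟨⟨h3, h4⟩, h5⟩ c
      simp only [mem_ofPred_eq] at h3 h4 h5
      refine ⟨⟨?_, ?_⟩, ?_⟩
      · simp only [mem_ofPred_eq, dotProduct_smul, smul_eq_mul, abs_mul]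
        have := mul_le_mul_of_nonneg_left h3 (abs_nonneg c)
        linarith
      · simp only [mem_ofPred_eq, dotProduct_smul, smul_eq_mul, abs_mul]
        have := mul_le_mul_of_nonneg_left h4 (abs_nonneg c)
        linarith
      · simp only [mem_ofPred_eq, dotProduct_smul, smul_eq_mul]
        have := mul_le_mul_of_nonneg_left h5 (sq_nonneg c)
        nlinarith)
    (by
      rintro x (h3 | h3) c
      · left
        simp only [mem_ofPred_eq, dotProduct_smul, smul_eq_mul] at h3 ⊢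
        have := mul_le_mul_of_nonneg_left h3 (sq_nonneg c)
        nlinarith
      · right
        simp only [mem_ofPred_eq, dotProduct_smul, smul_eq_mul] at h3 ⊢
        have := mul_le_mul_of_nonneg_left h3 (sq_nonneg c)
        nlinarith)
    (by
      intro p hp
      by_cases h3 : w 2 ⬝ᵥ p.1 = 0
      · right; left
        simp [h3]
      · have hL := chart hf hG p hp h3
        set X := (w 1 ⬝ᵥ p.1) / (w 2 ⬝ᵥ p.1) with hX
        set Y := (w 0 ⬝ᵥ p.1) / (w 2 ⬝ᵥ p.1) with hY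
        have hX' : w 1 ⬝ᵥ p.1 = X * (w 2 ⬝ᵥ p.1) := by rw [hX]; field_simp
        have hY' : w 0 ⬝ᵥ p.1 = Y * (w 2 ⬝ᵥ p.1) := by rw [hY]; field_simp
        have hsq : 0 < (w 2 ⬝ᵥ p.1) ^ 2 := by positivity
        rcases le_or_gt (s * X) (r * t) with h4 | h4
        · right; left
          simp only [mem_ofPred_eq]
          rw [hX']
          nlinarith
        · rcases le_or_gt t (s * X) with h5 | h5
          · right; right
            simp only [mem_ofPred_eq]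
            rw [hX']
            nlinarith
          · left
            have h6 : |X| ≤ t := by
              have h7 : |s * X| = |X| := by rw [abs_mul, hsa, one_mul]
              rw [← h7, abs_of_pos ((mul_pos hr0 ht).trans h4)]
              exact h5.le
            refine ⟨⟨?_, ?_⟩, ?_⟩
            · simp only [mem_ofPred_eq]
              rw [hY', abs_mul]
              exact mul_le_mul_of_nonneg_right (hB _ _ h6 ⟨_, hL⟩) (abs_nonneg _)
            · simp only [mem_ofPred_eq]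
              rw [hX', abs_mul]
              exact mul_le_mul_of_nonneg_right h6 (abs_nonneg _)
            · simp only [mem_ofPred_eq]
              rw [hX']
              nlinarith)
    (by
      rintro p hp ⟨⟨⟨h3, h4⟩, h5⟩, h6⟩
      simp only [mem_ofPred_eq] at h3 h4 h5
      by_cases h7 : w 2 ⬝ᵥ p.1 = 0
      · rw [h7, abs_zero, mul_zero] at h3 h4
        have h8 : w 0 ⬝ᵥ p.1 = 0 := abs_nonpos_iff.mp h3
        have h9 : w 1 ⬝ᵥ p.1 = 0 := abs_nonpos_iff.mp h4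
        have h10 := expand hG.dual p.1
        rw [h7, h8, h9] at h10
        simp only [zero_smul, add_zero] at h10
        exact hp.2.1 h10
      · have hL := chart hf hG p hp h7
        set X := (w 1 ⬝ᵥ p.1) / (w 2 ⬝ᵥ p.1) with hX
        have hX' : w 1 ⬝ᵥ p.1 = X * (w 2 ⬝ᵥ p.1) := by rw [hX]; field_simp
        have hsq : 0 < (w 2 ⬝ᵥ p.1) ^ 2 := by positivity
        have hXI : X ∈ Xs F v := ⟨_, _, hL⟩
        have h8 : r * t ≤ s * X := by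
          rw [hX'] at h5
          have h9 : r * t * (w 2 ⬝ᵥ p.1) ^ 2 ≤ (s * X) * (w 2 ⬝ᵥ p.1) ^ 2 := by linarith
          exact le_of_mul_le_mul_right h9 hsq
        have h9 : s * X ≤ t := by
          rw [hX', abs_mul] at h4
          have h10 : |X| ≤ t := le_of_mul_le_mul_right h4 (abs_pos.mpr h7)
          have h11 : |s * X| = |X| := by rw [abs_mul, hsa, one_mul]
          exact (le_abs_self _).trans (h11.le.trans h10)
        rcases h6 with h6 | h6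
        · simp only [mem_ofPred_eq] at h6
          rw [hX'] at h6
          have h10 : (s * X) * (w 2 ⬝ᵥ p.1) ^ 2 ≤ r * t * (w 2 ⬝ᵥ p.1) ^ 2 := by linarith
          have h11 := le_of_mul_le_mul_right h10 hsq
          have h12 : s * X = r * t := le_antisymm h11 h8
          have h13 : X = s * (r * t) := by
            rw [← h12, ← mul_assoc, hss, one_mul]
          rw [h13] at hXI
          exact hrst hXI
        · simp only [mem_ofPred_eq] at h6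
          rw [hX'] at h6
          have h10 : t * (w 2 ⬝ᵥ p.1) ^ 2 ≤ (s * X) * (w 2 ⬝ᵥ p.1) ^ 2 := by linarith
          have h11 := le_of_mul_le_mul_right h10 hsq
          have h12 : s * X = t := le_antisymm h9 h11
          have h13 : X = s * t := by
            rw [← h12, ← mul_assoc, hss, one_mul]
          rw [h13] at hXI
          exact hst hXI)
  rcases hsplit with h | h
  · obtain ⟨c, _, htop⟩ := hG.top
    have h3 : |w 0 ⬝ᵥ v 0| ≤ B * |w 2 ⬝ᵥ v 0| := (h _ htop).1.1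
    have e1 : w 0 ⬝ᵥ v 0 = 1 := by rw [hG.dual, if_pos rfl]
    have e2 : w 2 ⬝ᵥ v 0 = 0 := by rw [hG.dual, if_neg (by decide)]
    rw [e1, e2, abs_zero, mul_zero, abs_one] at h3
    linarith
  · obtain ⟨Y, φ, hφ⟩ := hmem
    obtain ⟨-, e1, e2⟩ := w_pt hG.dual (s * t1) Y
    rcases h _ hφ with h3 | h3
    · simp only [mem_ofPred_eq, e1, e2] at h3
      have : s * (s * t1) = t1 := by rw [← mul_assoc, hss, one_mul]
      rw [this] at h3
      linarith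
    · simp only [mem_ofPred_eq, e1, e2] at h3
      have : s * (s * t1) = t1 := by rw [← mul_assoc, hss, one_mul]
      rw [this] at h3
      linarith

theorem ordC (hf : S_flag) (h2 : S_good2) (hG : F.Good d v w μ) (hC : F.Conn) :
    (Xs F v).OrdConnected := by
  refine ⟨fun x hx y hy z hz => ?_⟩
  rcases lt_trichotomy z 0 with h | h | h
  · have h3 := gap hf h2 hG hC (-1) (-z) (-x) (Or.inr rfl) (by linarith) (by linarith [hz.1])
      (by rw [neg_mul_neg, one_mul]; exact hx)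
    rw [neg_mul_neg, one_mul] at h3
    exact h3
  · rw [h]
    exact ⟨0, zero hG⟩
  · have h3 := gap hf h2 hG hC 1 z y (Or.inl rfl) h (by linarith [hz.2])
      (by rw [one_mul]; exact hy)
    rw [one_mul] at h3
    exact h3

theorem slopes (hf : S_flag) (h2 : S_good2) (hG : F.Good d v w μ) (ε : ℝ) (hε : 0 < ε) :
    ∃ δ > 0, ∀ x m, |x| < δ → Fl F v x (Yf F v x) m → |m| < ε := by
  by_contra hcon
  push Not at hcon
  have key : ∀ n : ℕ, ∃ x m, |x| < 1 / ((n : ℝ) + 1) ∧ Fl F v x (Yf F v x) m ∧ ε ≤ |m| :=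
    fun n => hcon _ (by positivity)
  choose x m hx hFl hm using key
  choose φ hφ hb using hFl
  have hxI : ∀ n, x n ∈ Xs F v := fun n => ⟨_, _, hφ n⟩
  have hx0 : Tendsto x atTop (𝓝 0) := by
    apply squeeze_zero_norm (fun n => ?_) tendsto_one_div_add_atTop_nhds_zero_nat
    rw [Real.norm_eq_abs]
    exact (hx n).le
  have h0I : (0 : ℝ) ∈ Xs F v := ⟨0, zero hG⟩
  have hY0 : Yf F v 0 = 0 := Yf_eq hf h2 hG (zero hG)
  have hYn : Tendsto (fun n => Yf F v (x n)) atTop (𝓝 0) := by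
    have h3 := (contY hf h2 hG 0 h0I).tendsto
    rw [hY0] at h3
    exact h3.comp (tendsto_nhdsWithin_iff.mpr ⟨hx0, Eventually.of_forall hxI⟩)
  have hφn : ∀ n, φ n ≠ 0 := fun n => (hφ n).2.2
  have hψ : ∀ n, ‖(‖φ n‖)⁻¹ • φ n‖ = 1 := by
    intro n
    rw [norm_smul, norm_inv, norm_norm, inv_mul_cancel₀ (norm_ne_zero_iff.mpr (hφn n))]
  obtain ⟨ψ, hψm, k, hk, hlim⟩ := (isCompact_sphere (0 : E) 1).tendsto_subseq
    (x := fun n => (‖φ n‖)⁻¹ • φ n) (fun n => by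
      rw [mem_sphere_zero_iff_norm]
      exact hψ n)
  have hψ1 : ‖ψ‖ = 1 := by
    rw [mem_sphere_zero_iff_norm] at hψm
    exact hψm
  have hψ0 : ψ ≠ 0 := by
    intro h
    rw [h, norm_zero] at hψ1
    exact zero_ne_one hψ1
  obtain ⟨_, hsc, _, hdot, _, hcl, _, _, _⟩ := hf F
  have hfl : ((v 2, ψ) : E × E) ∈ F.fl := by
    apply hcl (v 2, ψ) _ (v_ne hG.dual 2) hψ0
    have hpt : Tendsto (fun n => pt v (x (k n)) (Yf F v (x (k n)))) atTop (𝓝 (v 2)) := by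
      have h3 : Tendsto (fun n => pt v (x (k n)) (Yf F v (x (k n)))) atTop
          (𝓝 ((0 : ℝ) • v 0 + (0 : ℝ) • v 1 + v 2)) :=
        (((hYn.comp hk.tendsto_atTop).smul_const _).add
          ((hx0.comp hk.tendsto_atTop).smul_const _)).add tendsto_const_nhds
      rw [zero_smul, zero_smul, zero_add, zero_add] at h3
      exact h3
    apply mem_closure_of_tendsto (hpt.prodMk_nhds hlim)
    filter_upwards with n
    have h4 := hsc _ (hφ (k n)) 1 (‖φ (k n)‖)⁻¹ (by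
      rw [one_mul]
      exact inv_pos.mpr (norm_pos_iff.mpr (hφn _)))
    rw [one_smul] at h4
    exact h4
  obtain ⟨t, ht⟩ := (h2 F d v w μ hG _ hfl).2.2.2 (hdot _ hfl)
  have ht' : ψ = t • w 0 := ht
  have hψv1 : ψ ⬝ᵥ v 1 = 0 := by
    rw [ht', smul_dotProduct, hG.dual]
    simp
  have hψv0 : ψ ⬝ᵥ v 0 = t := by
    rw [ht', smul_dotProduct, hG.dual]
    simp
  have ht0 : t ≠ 0 := by
    rintro rfl
    rw [zero_smul] at ht'
    exact hψ0 ht'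
  have hc : ∀ i, Continuous fun z : E => z ⬝ᵥ v i := by
    intro i
    exact Continuous.dotProduct continuous_id continuous_const
  have l1 : Tendsto (fun n => |((‖φ (k n)‖)⁻¹ • φ (k n)) ⬝ᵥ v 1|) atTop (𝓝 0) := by
    have h3 := (((hc 1).tendsto ψ).comp hlim).abs
    rw [hψv1, abs_zero] at h3
    exact h3
  have l0 : Tendsto (fun n => ε * |((‖φ (k n)‖)⁻¹ • φ (k n)) ⬝ᵥ v 0|) atTop (𝓝 (ε * |t|)) := by
    have h3 := (((hc 0).tendsto ψ).comp hlim).abs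
    rw [hψv0] at h3
    exact h3.const_mul ε
  have h5 := le_of_tendsto_of_tendsto l0 l1 (Eventually.of_forall fun n => by
    show ε * |((‖φ (k n)‖)⁻¹ • φ (k n)) ⬝ᵥ v 0| ≤ |((‖φ (k n)‖)⁻¹ • φ (k n)) ⬝ᵥ v 1|
    rw [smul_dotProduct, smul_dotProduct, hb (k n), smul_eq_mul, smul_eq_mul, abs_mul, abs_mul,
      abs_mul, abs_neg]
    have h6 := hm (k n)
    have h7 := abs_nonneg (‖φ (k n)‖)⁻¹
    have h8 := abs_nonneg (φ (k n) ⬝ᵥ v 0)
    nlinarith [mul_le_mul_of_nonneg_right h6 (mul_nonneg h7 h8)])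
  have h6 : 0 < ε * |t| := mul_pos hε (abs_pos.mpr ht0)
  linarith

end

theorem side (hf : S_flag) (h2 : S_good2) (hD : S_lemD) (hr : S_real) : S_side := by
  intro F d v w μ hG hC
  have hY0 : Yf F v 0 = 0 := Yf_eq hf h2 hG (zero hG)
  have hmain := hr (Xs F v) (Yf F v) (fun x m => Fl F v x (Yf F v x) m) (ordC hf h2 hG hC)
    ⟨0, zero hG⟩ (contY hf h2 hG) (by
      rintro x m ⟨φ, hφ, _⟩
      exact ⟨_, φ, hφ⟩) (by
      intro x hx
      exact exists_slope hf h2 hG (Yf_spec hx)) (by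
      intro x m x' m' h h' hxx
      have h3 := nc2 hf h2 hG h h'
      have h4 : 0 < x' - x := sub_pos.mpr hxx
      have h5 : ((Yf F v x' - Yf F v x) - m * (x' - x)) * (m' * (x' - x) - (Yf F v x' - Yf F v x)) =
          (x' - x) ^ 2 * (((Yf F v x' - Yf F v x) / (x' - x) - m) *
            (m' - (Yf F v x' - Yf F v x) / (x' - x))) := by
        field_simp
      rw [h5] at h3
      exact nonneg_of_mul_nonneg_right h3 (by positivity)) (by
      rintro x m ⟨φ, hφ, hb⟩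
      obtain ⟨Z, hZ0, hZ⟩ := hD F _ hφ
      apply Set.Finite.subset (Z.finite_toSet.image fun z => (w 1 ⬝ᵥ z) / (w 2 ⬝ᵥ z))
      rintro x' ⟨hx', heq⟩
      obtain ⟨φ', hφ'⟩ := Yf_spec hx'
      have hd : φ ⬝ᵥ pt v x (Yf F v x) = 0 := (hf F).2.2.2.1 _ hφ
      have h0 : φ ⬝ᵥ pt v x' (Yf F v x') = 0 := by
        rw [φ_pt, hb] at hd ⊢
        rw [heq]
        linarith
      obtain ⟨z, hz, t, ht, h3⟩ := hZ _ hφ' h0
      refine ⟨z, hz, ?_⟩
      have h3' : pt v x' (Yf F v x') = t • z := h3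
      obtain ⟨-, e1, e2⟩ := w_pt hG.dual x' (Yf F v x')
      rw [h3', dotProduct_smul, smul_eq_mul] at e1 e2
      have h6 : w 2 ⬝ᵥ z ≠ 0 := by
        intro h7
        rw [h7, mul_zero] at e2
        exact zero_ne_one e2
      show (w 1 ⬝ᵥ z) / (w 2 ⬝ᵥ z) = x'
      rw [div_eq_iff h6, ← e1]
      calc w 1 ⬝ᵥ z = (t * (w 2 ⬝ᵥ z)) * (w 1 ⬝ᵥ z) := by rw [e2, one_mul]
        _ = t * (w 1 ⬝ᵥ z) * (w 2 ⬝ᵥ z) := by ring) hY0 (by
      intro x hx hx0 hY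
      obtain ⟨φ, hφ⟩ := Yf_spec hx
      rw [hY] at hφ
      obtain ⟨t, ht⟩ := (h2 F d v w μ hG _ hφ).2.1 (w_pt hG.dual x 0).1
      have ht' : pt v x 0 = t • v 2 := ht
      have h3 := (w_pt hG.dual x 0).2.1
      rw [ht', dotProduct_smul, hG.dual] at h3
      simp at h3
      exact hx0 h3.symm) (by
      rintro m ⟨φ, hφ, hb⟩
      rw [hY0] at hφ
      have hpt : pt v 0 0 = v 2 := by simp [pt]
      have hd := (hf F).2.2.2.1 _ hφ
      have hc := φ_ne h2 hG hφ hd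
      have hd' : φ ⬝ᵥ v 2 = 0 := by
        rw [← hpt]
        exact hd
      obtain ⟨t, ht⟩ := (h2 F d v w μ hG _ hφ).2.2.2 hd'
      have ht' : φ = t • w 0 := ht
      have h3 : φ ⬝ᵥ v 1 = 0 := by
        rw [ht', smul_dotProduct, hG.dual]
        simp
      rw [h3] at hb
      rcases mul_eq_zero.mp hb.symm with h4 | h4
      · linarith
      · exact absurd h4 hc) (fun ε hε => slopes hf h2 hG ε hε)
  have hfin : ∀ p ∈ F.fl, w 2 ⬝ᵥ p.1 ≠ 0 → ∃ X ∈ Xs F v, (w 0 ⬝ᵥ p.1) * (w 2 ⬝ᵥ p.1) =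
      Yf F v X * (w 2 ⬝ᵥ p.1) ^ 2 := by
    intro p hp h
    have h3 := chart hf hG p hp h
    refine ⟨_, ⟨_, _, h3⟩, ?_⟩
    rw [Yf_eq hf h2 hG ⟨_, h3⟩]
    field_simp
  rcases hmain with h | h
  · refine ⟨1, Or.inl rfl, fun p hp => ?_⟩
    by_cases h3 : w 2 ⬝ᵥ p.1 = 0
    · rw [h3, mul_zero, mul_zero]
    · obtain ⟨X, hX, he⟩ := hfin p hp h3
      rw [he, one_mul]
      exact mul_nonneg (h X hX) (sq_nonneg _)
  · refine ⟨-1, Or.inr rfl, fun p hp => ?_⟩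
    by_cases h3 : w 2 ⬝ᵥ p.1 = 0
    · rw [h3, mul_zero, mul_zero]
    · obtain ⟨X, hX, he⟩ := hfin p hp h3
      rw [he]
      have h4 := h X hX
      nlinarith [sq_nonneg (w 2 ⬝ᵥ p.1)]

end Pool.Agent.Helper65.K3.side
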